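import Pool.Agent.V5helper25.QC.Lif

/-!
# MP_3a2b62: orbits over points which are asymptotic to typical points (arbitrary circle actions)
-/

set_option autoImplicit false
set_option linter.unusedSectionVars false
set_option linter.unusedVariables false

open scoped Topology ENNReal
open MeasureTheory Filter Set Metric

universe u v

namespace Pool.Agent.V5helper25.QC

open Pool.Agent.N813.CX Pool.Agent.V5helper25.CA Pool.Agent.TH525.PF Pool.Agent.TH525.PF.Sys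
open Pool.Agent.V5helper25.QA (Shad IsOrb Att As near_all unif_per push_ae)
open Pool.Agent.V5helper25.PB (Fs co Ga)
open Pool.Agent.V5helper25.TK (pi_psi)

/-- The fibre maps over the orbits of `z` and `v` are exponentially close for all parameters, after a
change of the positions. -/
def AsyZ {N : Type u} [MetricSpace N] (F : N → N) (ψ : ℝ → N → N) (A : ℝ → N → ℝ → ℝ) (z v : N) :
    Prop :=
  ∃ (τ : ℕ → ℝ) (lam : ℝ), 0 < lam ∧ lam < 1 ∧
    Tendsto (fun n => dist (F^[n] z) (ψ (τ n) (F^[n] v))) atTop (𝓝 0) ∧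
    ∀ s, ∃ C : ℝ, 0 ≤ C ∧ ∀ n t,
      |A s (F^[n] z) (t - τ n) + τ (n + 1) - A s (F^[n] v) t| ≤ C * lam ^ n

/-- finitely many transitive sets attract the orbits over the points asymptotic to typical points -/
def FinZ {N : Type u} [MetricSpace N] {B : Type v} [MeasurableSpace B] (F : N → N)
    (A : ℝ → N → ℝ → ℝ) (G : N → N) (ψ : ℝ → N → N) (π : N → B) (m : Measure B) : Prop :=
  ∃ (k : ℕ) (Λ : Fin k → Set N), (∀ i, IsClosed (Λ i) ∧ G '' Λ i = Λ i ∧
      ∃ x ∈ Λ i, Λ i ⊆ closure (range fun n : ℕ => G^[n] x)) ∧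
    ∀ᵐ y ∂m, ∀ z v, π v = y → AsyZ F ψ A z v → ∀ᵐ t : ℝ, ∃ i,
      Tendsto (fun n => infDist (G^[n] (ψ t z)) (Λ i)) atTop (𝓝 0)

section

variable {N : Type u} [MetricSpace N] [CompactSpace N] {F : N ≃ₜ N} {ψ : ℝ → N → N}
  {A A' : ℝ → N → ℝ → ℝ} {c L : ℝ}

/-- the rotations are equicontinuous -/
theorem psi_unif (h : CAct ψ) {ε : ℝ} (hε : 0 < ε) :
    ∃ δ : ℝ, 0 < δ ∧ ∀ (x y : N) (t : ℝ), dist x y < δ → dist (ψ t x) (ψ t y) < ε := by
  have hK : IsCompact (Icc (0 : ℝ) 1 ×ˢ (univ : Set N)) := isCompact_Icc.prod isCompact_univ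
  have hu := hK.uniformContinuousOn_of_continuous h.cont.continuousOn
  obtain ⟨δ, hδ, hδ'⟩ := Metric.uniformContinuousOn_iff.1 hu ε hε
  refine ⟨δ, hδ, fun x y t hxy => ?_⟩
  have hm : t - ⌊t⌋ ∈ Icc (0 : ℝ) 1 := by
    have f1 := Int.floor_le t
    have f2 := Int.lt_floor_add_one t
    constructor <;> linarith
  have h1 := hδ' (t - ⌊t⌋, x) ⟨hm, mem_univ _⟩ (t - ⌊t⌋, y) ⟨hm, mem_univ _⟩
    (by rw [Prod.dist_eq, dist_self]; exact max_lt hδ hxy)
  have e : ∀ w, ψ (t - ⌊t⌋) w = ψ t w := fun w => by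
    have := psi_shift h (t - ⌊t⌋) ⌊t⌋ w
    rwa [sub_add_cancel, eq_comm] at this
  simp only [e] at h1
  exact h1

theorem psi_tendsto (h : CAct ψ) {x y : ℕ → N} (a : ℕ → ℝ)
    (hxy : Tendsto (fun n => dist (x n) (y n)) atTop (𝓝 0)) :
    Tendsto (fun n => dist (ψ (a n) (x n)) (ψ (a n) (y n))) atTop (𝓝 0) := by
  rw [Metric.tendsto_atTop]
  intro ε hε
  obtain ⟨δ, hδ, h1⟩ := psi_unif h hε
  obtain ⟨n₀, hn₀⟩ := (Metric.tendsto_atTop.1 hxy) δ hδ
  refine ⟨n₀, fun n hn => ?_⟩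
  have h2 := hn₀ n hn
  rw [Real.dist_eq, sub_zero, abs_of_nonneg dist_nonneg] at h2 ⊢
  exact h1 _ _ _ h2

theorem AsyZ.fibre (h : MC F ψ A A' c L) {z v : N} {a : ℝ} (ha : AsyZ F ψ A z (ψ a v)) :
    AsyZ F ψ A z v := by
  obtain ⟨τ, lam, h0, h1, hd, hC⟩ := ha
  refine ⟨fun n => τ n + co F A 0 n v a, lam, h0, h1, ?_, fun s => ?_⟩
  · refine hd.congr fun n => ?_
    rw [iter_shift h, ← h.act.add]
  · obtain ⟨C, hC0, hC1⟩ := hC s
    refine ⟨C, hC0, fun n t => ?_⟩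
    have h2 := hC1 n (t - co F A 0 n v a)
    rw [iter_shift h n v a, h.shift, sub_add_cancel] at h2
    have e : A s (F^[n] z) (t - (τ n + co F A 0 n v a)) + (τ (n + 1) + co F A 0 (n + 1) v a) -
        A s (F^[n] v) t = A s (F^[n] z) (t - co F A 0 n v a - τ n) + τ (n + 1) -
        (A s (F^[n] v) t - A 0 (F^[n] v) (co F A 0 n v a)) := by
      have e1 : co F A 0 (n + 1) v a = A 0 (F^[n] v) (co F A 0 n v a) := rfl
      rw [e1, show t - (τ n + co F A 0 n v a) = t - co F A 0 n v a - τ n by ring]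
      ring
    show |A s (F^[n] z) (t - (τ n + co F A 0 n v a)) + (τ (n + 1) + co F A 0 (n + 1) v a) -
      A s (F^[n] v) t| ≤ _
    rw [e]
    exact h2

theorem AsyZ.recen (h : MC F ψ A A' c L) {z v : N} (ha : AsyZ F ψ A z v) (s₀ : ℝ) :
    AsyZ (fsH h s₀) ψ (fun σ y t => A (s₀ + σ) y t - A s₀ y 0) z v := by
  obtain ⟨τ, lam, h0, h1, hd, hC⟩ := ha
  have hit : ∀ n y, (fsH h s₀)^[n] y = ψ (co F A s₀ n y 0) (F^[n] y) := fun n y =>
    co_iter0 h s₀ n y
  refine ⟨fun n => co F A s₀ n z 0 + τ n - co F A s₀ n v 0, lam, h0, h1, ?_, fun s => ?_⟩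
  · refine (psi_tendsto h.act (fun n => co F A s₀ n z 0) hd).congr fun n => ?_
    rw [hit, hit, ← h.act.add, ← h.act.add, sub_add_cancel]
  · obtain ⟨C, hC0, hC1⟩ := hC (s₀ + s)
    refine ⟨C, hC0, fun n t => ?_⟩
    have h2 := hC1 n (t + co F A s₀ n v 0)
    show |A (s₀ + s) ((fsH h s₀)^[n] z) (t - (co F A s₀ n z 0 + τ n - co F A s₀ n v 0)) -
      A s₀ ((fsH h s₀)^[n] z) 0 + (co F A s₀ (n + 1) z 0 + τ (n + 1) - co F A s₀ (n + 1) v 0) -
      (A (s₀ + s) ((fsH h s₀)^[n] v) t - A s₀ ((fsH h s₀)^[n] v) 0)| ≤ _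
    rw [hit, hit, h.shift, h.shift, h.shift, h.shift]
    have e1 : co F A s₀ (n + 1) z 0 = A s₀ (F^[n] z) (co F A s₀ n z 0) := rfl
    have e2 : co F A s₀ (n + 1) v 0 = A s₀ (F^[n] v) (co F A s₀ n v 0) := rfl
    rw [e1, e2, zero_add, zero_add,
      show t - (co F A s₀ n z 0 + τ n - co F A s₀ n v 0) + co F A s₀ n z 0 =
        t + co F A s₀ n v 0 - τ n by ring]
    have e3 : A (s₀ + s) (F^[n] z) (t + co F A s₀ n v 0 - τ n) - A 0 (F^[n] z) (co F A s₀ n z 0) -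
        (A s₀ (F^[n] z) (co F A s₀ n z 0) - A 0 (F^[n] z) (co F A s₀ n z 0)) +
        (A s₀ (F^[n] z) (co F A s₀ n z 0) + τ (n + 1) - A s₀ (F^[n] v) (co F A s₀ n v 0)) -
        (A (s₀ + s) (F^[n] v) (t + co F A s₀ n v 0) - A 0 (F^[n] v) (co F A s₀ n v 0) -
          (A s₀ (F^[n] v) (co F A s₀ n v 0) - A 0 (F^[n] v) (co F A s₀ n v 0))) =
        A (s₀ + s) (F^[n] z) (t + co F A s₀ n v 0 - τ n) + τ (n + 1) -
          A (s₀ + s) (F^[n] v) (t + co F A s₀ n v 0) := by ring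
    rw [e3]
    exact h2

variable [MeasurableSpace N] [BorelSpace N]

theorem A'_shift (h : MC F ψ A A' c L) (s : ℝ) (y : N) (w t : ℝ) :
    A' s (ψ w y) t = A' s y (t + w) := by
  have e1 : HasDerivAt (A s (ψ w y)) (A' s (ψ w y) t) t := h.der s _ t
  have e2 : HasDerivAt (fun u => A s y (u + w) - A 0 y w) (A' s y (t + w)) t :=
    ((h.der s y (t + w)).comp_add_const t w).sub_const _
  have e3 : (fun u => A s y (u + w) - A 0 y w) = A s (ψ w y) := funext fun u => (h.shift s y w u).symm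
  rw [e3] at e2
  exact e1.unique e2

/-- **The fibre maps over an asymptotic point are perturbed fibre maps.** -/
theorem shad_of (h : MC F ψ A A' c L) (s : ℝ) {z v : N} {τ : ℕ → ℝ} {C lam : ℝ} (hC : 0 ≤ C)
    (hd : Tendsto (fun n => dist (F^[n] z) (ψ (τ n) (F^[n] v))) atTop (𝓝 0))
    (hcl : ∀ n t, |A s (F^[n] z) (t - τ n) + τ (n + 1) - A s (F^[n] v) t| ≤ C * lam ^ n) :
    Shad ((famN h).sy s) v (fun n u => A s (F^[n] z) (u - τ n) + τ (n + 1))
      (fun n u => A' s (F^[n] z) (u - τ n)) C lam := by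
  have hlogper : ∀ y t (j : ℤ), Real.log (A' s y (t + j)) = Real.log (A' s y t) := by
    intro y t j
    rw [dper h]
  have hlogc : Continuous fun q : N × ℝ => Real.log (A' s q.1 q.2) :=
    (h.dcont.comp (continuous_const.prodMk continuous_id)).log fun p => (apos h s p.1 p.2).ne'
  obtain ⟨hu, -⟩ := unif_per (g := fun y t => Real.log (A' s y t)) hlogc hlogper
  refine
    { der := fun n t => ?_
      lo := fun n t => h.lo s _ _
      hi := fun n t => h.hi s _ _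
      one := fun n t => ?_
      C0 := hC
      close := fun n t => hcl n t
      dclose := fun ε hε => ?_ }
  · have e1 := (h.der s (F^[n] z) (t - τ n)).comp_sub_const t (τ n)
    exact e1.add_const _
  · show A s (F^[n] z) (t + 1 - τ n) + τ (n + 1) = A s (F^[n] z) (t - τ n) + τ (n + 1) + 1
    rw [show t + 1 - τ n = t - τ n + 1 by ring, h.aone]
    ring
  · obtain ⟨r, hr, hr2⟩ := hu ε hε
    filter_upwards [hd.eventually (gt_mem_nhds hr)] with n hn t
    have e1 := hr2 (F^[n] z) (ψ (τ n) (F^[n] v)) (t - τ n) hn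
    rw [A'_shift h, sub_add_cancel] at e1
    exact e1.le

variable {B : Type v} [MetricSpace B] [MeasurableSpace B] [BorelSpace B] {π : N → B} {f : B → B}
  {ν : Measure N} [IsProbabilityMeasure ν] {m : Measure B} [IsProbabilityMeasure m]

/-- **Locked parameters to the right of `0`.** -/
theorem lk0 (h : MC F ψ A A' c L) (ho : OrbitMap F ψ π f)
    (erg : Ergodic f m) {b : ℝ} (hG : ∀ n, m (π '' Ga F A 0 b n) = 0) :
    ∃ Z : Set ℝ, IsClosed Z ∧ volume Z = 0 ∧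
      ∀ s, 0 ≤ s → s ≤ b → s ∉ Z → FinZ F A (Fs F ψ A s) ψ π m := by
  classical
  have hCB : CompactSpace B := ⟨by rw [← ho.surj.range_eq]; exact isCompact_range ho.cont⟩
  obtain ⟨ν, hν1, hν2, hν3⟩ : ∃ ν : Measure N, IsProbabilityMeasure ν ∧ Ergodic F ν ∧
      ν.map π = m := by
    obtain ⟨μ₀, hμ₀, hμ₀'⟩ := exists_lift0 h.act ho m
    exact exists_erg_lift F.continuous ho.cont ho.semi erg hμ₀'
  set S := famN h with hS
  have hTT : (S.T : N → N) = F := rfl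
  have ergS : Ergodic S.T ν := by rw [hTT]; exact hν2
  refine ⟨S.Neu ν, S.neu_closed ergS h.aone h.azero, S.sard ergS, fun s hs0 hs1 hs => ?_⟩
  have hν4 : ∀ᵐ y ∂ν, ∀ n, y ∉ Ga F A 0 b n := by
    rw [ae_all_iff]
    intro n
    have h3 : ∀ᵐ x ∂m, x ∉ π '' Ga F A 0 b n := measure_eq_zero_iff_ae_notMem.1 (hG n)
    have hQ : Measure.QuasiMeasurePreserving π ν m :=
      ⟨ho.cont.measurable, hν3 ▸ Measure.AbsolutelyContinuous.rfl⟩
    filter_upwards [hQ.ae h3] with y hy hc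
    exact hy ⟨y, hc, rfl⟩
  have hco0 : ∀ n y, co F A 0 n y 0 = 0 := by
    intro n y
    induction n with
    | zero => rfl
    | succ n ih =>
      show A 0 _ (co F A 0 n y 0) = 0
      rw [ih, h.azero]
  have hbd : ∀ᵐ y ∂ν, ∀ n, (S.sy b).it n y 0 ≤ 2 := by
    filter_upwards [hν4] with y hy n
    have h3 := Ga_not h (hy n) 0
    rw [hco0] at h3
    rw [hS, it_co]
    linarith
  obtain ⟨α, hα⟩ := S.exists_gr ergS h.azero hs0 hs1 hbd
  have htop := h.act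
  obtain ⟨A1, hA1, hnear⟩ := near_all (S := S.sy s) (ν := ν) ergS (fun x y => h.aone s x y)
    (fun φ hφ h0 => hs ⟨φ, hφ, h0⟩) hα
  -- the graphs as orbits
  have hstep : ∀ φ, (S.sy s).Gr ν φ → ∀ᵐ y ∂ν, ∀ n : ℕ,
      (fsH h s)^[n] (ψ (φ y) y) = ψ (φ (F^[n] y)) (F^[n] y) := by
    intro φ hφ
    filter_upwards [hφ.iter (S.sy s) ergS] with y hy n
    have e1 := hy n
    rw [hS, it_co] at e1
    have e2 := co_iter h s n y (φ y)
    rw [e1] at e2
    exact e2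
  have hatt : ∀ φ : N → ℝ, ∃ Λ : Set N, (S.sy s).Gr ν φ → (IsClosed Λ ∧ fsH h s '' Λ = Λ ∧
      (∃ x ∈ Λ, Λ ⊆ closure (range fun n : ℕ => (fsH h s)^[n] x)) ∧
      ∀ᵐ y ∂ν, ψ (φ y) y ∈ Λ) := by
    intro φ
    by_cases hφ : (S.sy s).Gr ν φ
    · obtain ⟨Λ, a1, a2, a3, a4, a5⟩ := factor_attractor ergS (fsH h s) (fun y => ψ (φ y) y)
        (h.act.cont.measurable.comp (hφ.1.prodMk measurable_id)) (hstep φ hφ)
      exact ⟨Λ, fun _ => ⟨a1, a2, a3, a5⟩⟩
    · exact ⟨∅, fun h' => absurd h' hφ⟩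
  choose Λ hΛ using hatt
  set e := A1.equivFin with he
  refine ⟨A1.card, fun i => Λ (e.symm i), fun i => ?_, ?_⟩
  · have hφ := (hA1 _ (e.symm i).2).1
    exact ⟨(hΛ _ hφ).1, (hΛ _ hφ).2.1, (hΛ _ hφ).2.2.1⟩
  -- typical points upstairs
  have hmem : ∀ᵐ v ∂ν, ∀ φ ∈ A1, ∀ n : ℕ, ψ (φ (F^[n] v)) (F^[n] v) ∈ Λ φ := by
    refine (Filter.eventually_all_finset A1).2 fun φ hφ => ?_
    obtain ⟨a1, a2, a3, a4⟩ := hΛ φ (hA1 φ hφ).1
    filter_upwards [a4, hstep φ (hA1 φ hφ).1] with v hv hst n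
    rw [← hst n]
    induction n with
    | zero => exact hv
    | succ n ih =>
      rw [Function.iterate_succ_apply', ← a2]
      exact mem_image_of_mem _ ih
  have hP : ∀ᵐ v ∂ν, ∀ z, AsyZ F ψ A z v → ∀ᵐ t : ℝ, ∃ i,
      Tendsto (fun n => infDist ((Fs F ψ A s)^[n] (ψ t z)) (Λ (e.symm i))) atTop (𝓝 0) := by
    filter_upwards [hnear, hmem] with v hv hvm z hz
    obtain ⟨τ, lam, h0, h1, hd, hC⟩ := hz
    obtain ⟨C, hC0, hcl⟩ := hC s
    have hsh := shad_of h s hC0 hd hcl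
    have hcount := hv _ _ C lam h0 h1 hsh
    have hae : ∀ᵐ t : ℝ, t + τ 0 ∉ {t : ℝ | ∃ X, IsOrb (fun n u => A s (F^[n] z) (u - τ n) +
        τ (n + 1)) 0 X ∧ X 0 = t ∧ ¬ Att (S.sy s) A1 v X} := by
      have hc2 : ((fun t : ℝ => t + τ 0) ⁻¹' {t : ℝ | ∃ X, IsOrb (fun n u => A s (F^[n] z)
          (u - τ n) + τ (n + 1)) 0 X ∧ X 0 = t ∧ ¬ Att (S.sy s) A1 v X}).Countable :=
        hcount.preimage (add_left_injective (τ 0))
      exact measure_eq_zero_iff_ae_notMem.1 (hc2.measure_zero volume)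
    filter_upwards [hae] with t ht
    -- the orbit
    have horb : IsOrb (fun n u => A s (F^[n] z) (u - τ n) + τ (n + 1)) 0
        (fun n => co F A s n z t + τ n) := by
      intro n _
      show A s (F^[n] z) (co F A s n z t) + τ (n + 1) =
        A s (F^[n] z) (co F A s n z t + τ n - τ n) + τ (n + 1)
      rw [add_sub_cancel_right]
    have hA : Att (S.sy s) A1 v (fun n => co F A s n z t + τ n) := by
      by_contra hc
      exact ht ⟨_, horb, rfl, hc⟩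
    obtain ⟨φ, hφ, k, hk⟩ := hA
    refine ⟨e ⟨φ, hφ⟩, ?_⟩
    rw [e.symm_apply_apply]
    have hk' : Tendsto (fun n => co F A s n z t + τ n - (φ (F^[n] v) + k)) atTop (𝓝 0) := hk
    rw [Metric.tendsto_atTop]
    intro ε hε
    obtain ⟨δ, hδ, hδ2⟩ := psi_small htop (half_pos hε)
    have hlim := psi_tendsto htop (fun n => co F A s n z t) hd
    obtain ⟨N1, hN1⟩ := (Metric.tendsto_atTop.1 hk') δ hδ
    obtain ⟨N2, hN2⟩ := eventually_atTop.1 (hlim.eventually (gt_mem_nhds (half_pos hε)))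
    refine ⟨max N1 N2, fun n hn => ?_⟩
    have b1 := hN1 n ((le_max_left _ _).trans hn)
    rw [Real.dist_eq, sub_zero] at b1
    have b2 := hN2 n ((le_max_right _ _).trans hn)
    rw [Real.dist_eq, sub_zero, abs_of_nonneg infDist_nonneg, co_iter h]
    refine (infDist_le_dist_of_mem (hvm φ hφ n)).trans_lt ?_
    have c1 : dist (ψ (co F A s n z t) (F^[n] z)) (ψ (co F A s n z t + τ n) (F^[n] v)) < ε / 2 := by
      rw [h.act.add]
      exact b2
    have c2 : dist (ψ (co F A s n z t + τ n) (F^[n] v)) (ψ (φ (F^[n] v)) (F^[n] v)) < ε / 2 := by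
      have e1 : ψ (φ (F^[n] v)) (F^[n] v) = ψ (φ (F^[n] v) + k) (F^[n] v) :=
        (psi_shift htop _ _ _).symm
      have e2 := hδ2 (ψ (φ (F^[n] v) + k) (F^[n] v)) _ b1
      rw [← h.act.add, sub_add_cancel] at e2
      rw [e1]
      exact e2
    have c3 := dist_triangle (ψ (co F A s n z t) (F^[n] z)) (ψ (co F A s n z t + τ n) (F^[n] v))
      (ψ (φ (F^[n] v)) (F^[n] v))
    linarith
  filter_upwards [push_ae ho.cont hν3 hP] with y hy z v hv hz
  obtain ⟨w, hw, hwP⟩ := hy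
  obtain ⟨a, rfl⟩ := (ho.eq w v).1 (by rw [hw, hv])
  exact hwP z (hz.fibre h)

end

end Pool.Agent.V5helper25.QC
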