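import Pool.Agent.V5helper25.QC.Mst
import Pool.Agent.V5helper25.CA.Stm
import Pool.Agent.V5helper25.QA.MainFA

/-!
# MP_3a2b62, Q2: exponentially asymptotic orbits of the flow `φ`, arbitrary circle actions
-/

set_option autoImplicit false
set_option linter.unusedSectionVars false
set_option linter.unusedVariables false

open scoped Manifold ContDiff Topology NNReal
open MeasureTheory Filter Set Metric

universe u v

namespace Pool.Agent.V5helper25.QC

open Pool.Agent.H718R2.G Pool.Agent.W564.SC Pool.Agent.N813.CX Pool.Agent.H728R2.FA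
  Pool.Agent.TH290.CL Pool.Agent.V5helper25.CA
open Pool.Agent.V5helper25.PB (FlowOn Yo Yo_zero Yo_der Yo_add Fs)
open Pool.Agent.V5helper25.QA (ExpCloseF common_rate iter_base)

section

variable {n : ℕ} {N : Type u} [TopologicalSpace N] [ChartedSpace (V n) N]
  {W : Type v} [NormedAddCommGroup W] [NormedSpace ℝ W] [FiniteDimensional ℝ W] {e : N → W}

/-- exponentially close curves, in a finite dimensional space -/
theorem close_embF (he : ContMDiff (𝓡 n) 𝓘(ℝ, W) ∞ e) {x w : ℝ → N} (h : ExpCloseF n x w) :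
    ∃ C l : ℝ, 0 ≤ C ∧ 0 < l ∧ ∀ t, 0 ≤ t → ‖e (x t) - e (w t)‖ ≤ C * Real.exp (-(l * t)) := by
  set b := Module.finBasis ℝ W with hb
  have h1 : ∀ j, ∃ C l : ℝ, 0 < l ∧ ∀ t, 0 ≤ t →
      |b.coord j (e (x t)) - b.coord j (e (w t))| ≤ C * Real.exp (-(l * t)) := by
    intro j
    refine h (fun y => b.coord j (e y)) ?_
    have h2 : ContMDiff 𝓘(ℝ, W) 𝓘(ℝ, ℝ) ∞ (LinearMap.toContinuousLinearMap (b.coord j)) :=
      (LinearMap.toContinuousLinearMap (b.coord j)).contDiff.contMDiff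
    exact h2.comp he
  choose C l hl0 hC using h1
  obtain ⟨L, hL0, hL1, hL⟩ := common_rate (fun j => Real.exp (-(l j))) (fun j => Real.exp_pos _)
    fun j => by rw [Real.exp_lt_one_iff]; linarith [hl0 j]
  have hlog : ∀ j, -Real.log L ≤ l j := by
    intro j
    have := Real.log_le_log (Real.exp_pos _) (hL j)
    rw [Real.log_exp] at this
    linarith
  refine ⟨∑ j, |C j| * ‖b j‖, -Real.log L, Finset.sum_nonneg fun j _ => by positivity,
    by linarith [Real.log_neg hL0 hL1], fun t ht => ?_⟩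
  have h3 : e (x t) - e (w t) = ∑ j, b.coord j (e (x t) - e (w t)) • b j :=
    (b.sum_repr (e (x t) - e (w t))).symm
  rw [h3, Finset.sum_mul]
  refine (norm_sum_le _ _).trans (Finset.sum_le_sum fun j _ => ?_)
  rw [norm_smul, Real.norm_eq_abs, map_sub]
  have h4 : |b.coord j (e (x t)) - b.coord j (e (w t))| ≤
      |C j| * Real.exp (-(-Real.log L * t)) := by
    refine (hC j t ht).trans ?_
    have e1 : C j * Real.exp (-(l j * t)) ≤ |C j| * Real.exp (-(l j * t)) :=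
      mul_le_mul_of_nonneg_right (le_abs_self _) (Real.exp_pos _).le
    have e2 : |C j| * Real.exp (-(l j * t)) ≤ |C j| * Real.exp (-(-Real.log L * t)) := by
      refine mul_le_mul_of_nonneg_left (Real.exp_le_exp.2 ?_) (abs_nonneg _)
      have := mul_le_mul_of_nonneg_right (hlog j) ht
      linarith
    exact e1.trans e2
  calc _ ≤ |C j| * Real.exp (-(-Real.log L * t)) * ‖b j‖ :=
        mul_le_mul_of_nonneg_right h4 (norm_nonneg _)
    _ = _ := by ring

end

section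

variable {N : Type u} [MetricSpace N] [CompactSpace N] {φ ψ : ℝ → N → N} {g g' : N → ℝ}

/-- the solutions over close orbits -/
theorem Yo_close (h : FldC N φ ψ g g') {τ₀ K' : ℝ} (hτ : 0 < τ₀) (hK' : 0 ≤ K')
    (hg : ∀ u x y, |g (ψ u x) - g (ψ u y)| ≤ K' * dist x y) :
    ∃ K : ℝ, 0 ≤ K ∧ ∀ (Z V : N) (ε : ℝ), 0 ≤ ε → (∀ r ∈ Icc 0 τ₀, dist (φ r Z) (φ r V) ≤ ε) →
      ∀ s w, |Yo h.fld s Z w τ₀ - Yo h.fld s V w τ₀| ≤ K * ε := by
  obtain ⟨K, hK0, hK1, hK2, hK3⟩ := h.fld.bd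
  have hKp : (0 : ℝ) < K := by exact_mod_cast hK0
  have hE : (0 : ℝ) ≤ Real.exp (K * τ₀) - 1 := by
    have := Real.one_le_exp (mul_nonneg hKp.le hτ.le)
    linarith
  refine ⟨K' / K * (Real.exp (K * τ₀) - 1), by positivity, fun Z V ε hε hd s w => ?_⟩
  have h1 := dist_le_of_approx_trajectories_ODE (v := fun t u => g (ψ u (φ t Z)) + s) (K := K)
    (f := Yo h.fld s Z w) (f' := fun t => g (ψ (Yo h.fld s Z w t) (φ t Z)) + s)
    (g := Yo h.fld s V w) (g' := fun t => g (ψ (Yo h.fld s V w t) (φ t V)) + s)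
    (a := 0) (b := τ₀) (εf := 0) (εg := K' * ε) (δ := 0)
    (fun t => LipschitzWith.of_dist_le_mul fun u u' => by
      have := (hK3 (φ t Z)).dist_le_mul u u'
      rw [dist_add_right]
      exact this)
    (fun t _ => (Yo_der h.fld s Z w t).continuousAt.continuousWithinAt)
    (fun t _ => (Yo_der h.fld s Z w t).hasDerivWithinAt)
    (fun t _ => by rw [dist_self])
    (fun t _ => (Yo_der h.fld s V w t).continuousAt.continuousWithinAt)
    (fun t _ => (Yo_der h.fld s V w t).hasDerivWithinAt)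
    (fun t ht => by
      rw [dist_add_right, Real.dist_eq]
      refine (hg _ _ _).trans (mul_le_mul_of_nonneg_left ?_ hK')
      rw [dist_comm]
      exact hd t ⟨ht.1, ht.2.le⟩)
    (by rw [Yo_zero, Yo_zero, dist_self]) τ₀ ⟨hτ.le, le_rfl⟩
  rw [gronwallBound_of_K_ne_0 hKp.ne', Real.dist_eq] at h1
  simp only [zero_mul, zero_add, sub_zero] at h1
  calc _ ≤ K' * ε / K * (Real.exp (K * τ₀) - 1) := h1
    _ = _ := by ring

/-- **Exponentially asymptotic orbits of `φ` give exponentially close fibre maps.** -/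
theorem asyz_field (h : FldC N φ ψ g g') {τ₀ K' : ℝ} (hτ : 0 < τ₀) (hK' : 0 ≤ K')
    (hg : ∀ u x y, |g (ψ u x) - g (ψ u y)| ≤ K' * dist x y) {z v : N} {C l : ℝ} (hC : 0 ≤ C)
    (hl : 0 < l) (hd : ∀ t, 0 ≤ t → dist (φ t z) (φ t v) ≤ C * Real.exp (-(l * t))) :
    AsyZ (FlowOn.homeo (Ph_flow h 0) τ₀) ψ (Af h τ₀) z v := by
  obtain ⟨K, hK, hY⟩ := Yo_close h hτ hK' hg
  have act : CAct ψ := ⟨h.act.cont, h.act.zero, h.act.add, h.per⟩
  set F := FlowOn.homeo (Ph_flow h 0) τ₀ with hF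
  set a : ℕ → ℝ := fun n => Yo h.fld 0 z 0 (n * τ₀) with ha
  set b : ℕ → ℝ := fun n => Yo h.fld 0 v 0 (n * τ₀) with hb
  have hz : ∀ n : ℕ, F^[n] z = ψ (a n) (φ (n * τ₀) z) := fun n => iter_base (Ph_flow h 0) τ₀ n z
  have hv : ∀ n : ℕ, F^[n] v = ψ (b n) (φ (n * τ₀) v) := fun n => iter_base (Ph_flow h 0) τ₀ n v
  have hstep : ∀ (x : N) (n : ℕ), Yo h.fld 0 x 0 ((n + 1 : ℕ) * τ₀) =
      Yo h.fld 0 (φ (n * τ₀) x) (Yo h.fld 0 x 0 (n * τ₀)) τ₀ := by
    intro x n
    rw [← Yo_add]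
    congr 1
    push_cast
    ring
  have hA : ∀ (s c : ℝ) (y : N) (t : ℝ), Af h τ₀ s (ψ c y) t =
      Yo h.fld s y (t + c) τ₀ - Yo h.fld 0 y c τ₀ := by
    intro s c y t
    show Yo h.fld s (ψ c y) t τ₀ - Yo h.fld 0 (ψ c y) 0 τ₀ = _
    rw [Yo_shift h, Yo_shift h, zero_add]
    ring
  set lam := Real.exp (-(l * τ₀)) with hlam
  have hpow : ∀ n : ℕ, lam ^ n = Real.exp (-(l * (n * τ₀))) := by
    intro n
    rw [hlam, ← Real.exp_nat_mul]
    congr 1
    ring
  have hlt : lam < 1 := by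
    rw [hlam, Real.exp_lt_one_iff]
    have := mul_pos hl hτ
    linarith
  refine ⟨fun n => a n - b n, lam, Real.exp_pos _, hlt, ?_, fun s => ?_⟩
  · have h1 : Tendsto (fun n : ℕ => dist (φ (n * τ₀) z) (φ (n * τ₀) v)) atTop (𝓝 0) := by
      have hlim : Tendsto (fun n : ℕ => C * lam ^ n) atTop (𝓝 0) := by
        have := (tendsto_pow_atTop_nhds_zero_of_lt_one (Real.exp_pos _).le hlt).const_mul C
        simpa using this
      refine squeeze_zero (fun _ => dist_nonneg) (fun n => ?_) hlim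
      rw [hpow]
      exact hd _ (by positivity)
    refine (psi_tendsto act a h1).congr fun n => ?_
    rw [hz, hv, ← act.add, sub_add_cancel]
  · refine ⟨K * C, mul_nonneg hK hC, fun n t => ?_⟩
    rw [hz, hv, hA, hA]
    have e1 : a (n + 1) = Yo h.fld 0 (φ (n * τ₀) z) (a n) τ₀ := hstep z n
    have e2 : b (n + 1) = Yo h.fld 0 (φ (n * τ₀) v) (b n) τ₀ := hstep v n
    rw [← e1, ← e2, show t - (a n - b n) + a n = t + b n by ring]
    have e3 : Yo h.fld s (φ (n * τ₀) z) (t + b n) τ₀ - a (n + 1) + (a (n + 1) - b (n + 1)) -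
        (Yo h.fld s (φ (n * τ₀) v) (t + b n) τ₀ - b (n + 1)) =
        Yo h.fld s (φ (n * τ₀) z) (t + b n) τ₀ - Yo h.fld s (φ (n * τ₀) v) (t + b n) τ₀ := by ring
    rw [e3, mul_assoc]
    refine hY _ _ (C * lam ^ n) (by positivity) (fun r hr => ?_) s _
    rw [← h.flow.add, ← h.flow.add, hpow]
    have hr0 : 0 ≤ r := hr.1
    refine (hd _ (by positivity)).trans (mul_le_mul_of_nonneg_left (Real.exp_le_exp.2 ?_) hC)
    have := mul_nonneg hl.le hr0
    linarith

end

end Pool.Agent.V5helper25.QC
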