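import Pool.Agent.V5helper25.QC.Stm

/-!
# MP_3a2b62, Q2: for free actions exponentially asymptotic fibres contain exponentially asymptotic points

This file shows that the hypothesis of `FieldsActions` follows, for free actions, from the hypothesis
`AsyBase` (`QA/MainFA.lean`) on the fibres alone.
-/

set_option autoImplicit false
set_option linter.unusedSectionVars false
set_option linter.unusedVariables false

open scoped Manifold ContDiff Topology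
open MeasureTheory Filter Set Metric

universe u v

namespace Pool.Agent.V5helper25.QC

open Pool.Agent.H718R2.G Pool.Agent.W564.SC Pool.Agent.N813.CX Pool.Agent.H728R2.FA
  Pool.Agent.TH290.CL Pool.Agent.V5helper25.CA
open Pool.Agent.V5helper25.PB (FlowOn IsFlowOf FieldC OrbitFlow)
open Pool.Agent.V5helper25.QA (ExpCloseF ExpAsyF AsyBase exists_emb lip_emb lipψ_emb sep_emb Emb der_aux)

/-- a sequence with exponentially small increments converges exponentially -/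
theorem lim_exp {c : ℕ → ℝ} {C lam : ℝ} (hC : 0 ≤ C) (h0 : 0 < lam) (h1 : lam < 1)
    (hc : ∀ n, |c (n + 1) - c n| ≤ C * lam ^ n) :
    ∃ c₀ : ℝ, ∀ n, |c n - c₀| ≤ C / (1 - lam) * lam ^ n := by
  have hd : ∀ n, dist (c n) (c (n + 1)) ≤ C * lam ^ n := fun n => by
    rw [dist_comm, Real.dist_eq]
    exact hc n
  obtain ⟨c₀, hc₀⟩ := cauchySeq_tendsto_of_complete (cauchySeq_of_le_geometric lam C h1 hd)
  refine ⟨c₀, fun n => ?_⟩
  have := dist_le_of_le_geometric_of_tendsto lam C h1 hd hc₀ n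
  rw [Real.dist_eq] at this
  calc _ ≤ C * lam ^ n / (1 - lam) := this
    _ = _ := by ring

section

variable {n : ℕ} {N : Type u} [TopologicalSpace N] [T2Space N] [CompactSpace N]
  [ChartedSpace (V n) N] [IsManifold (𝓡 n) ∞ N]
  {W : Type v} [NormedAddCommGroup W] [NormedSpace ℝ W] {e : N → W}

/-- the Lipschitz constants of a flow, uniform for bounded times -/
theorem lip_flow_unif (h : Emb n N e) {X : ∀ y : N, TangentSpace (𝓡 n) y} (hX : FieldC 1 X)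
    {Φ : ℝ → N → N} (hΦ : IsFlowOf X Φ) :
    ∃ K : ℝ, 0 ≤ K ∧ ∀ τ ∈ Icc (0 : ℝ) 1, ∀ x y, ‖e (Φ τ x) - e (Φ τ y)‖ ≤ K * ‖e x - e y‖ := by
  have : IsManifold (𝓡 n) 1 N := IsManifold.of_le (m := 1) (n := ∞) (by norm_cast)
  set Gv : N → W := fun y => mfderiv (𝓡 n) 𝓘(ℝ, W) e y (X y) with hGv
  have hG : ContMDiff (𝓡 n) 𝓘(ℝ, W) 1 Gv := by
    have h1 : ContMDiff (𝓡 n).tangent 𝓘(ℝ, W).tangent 1 (tangentMap (𝓡 n) 𝓘(ℝ, W) e) :=
      h.smooth.contMDiff_tangentMap (by norm_cast)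
    have h2 := ContMDiff.comp h1 hX
    exact (contMDiff_snd_tangentBundle_modelSpace W 𝓘(ℝ, W)).comp h2
  obtain ⟨K, hK, h1⟩ := lip_emb h (g := fun q : ℝ × N => Gv q.2) (hG.comp contMDiff_snd)
  have hder : ∀ y t, HasDerivAt (fun t => e (Φ t y)) (Gv (Φ t y)) t := by
    intro y t
    exact der_aux (γ := fun t => Φ t y) ((h.smooth (Φ t y)).mdifferentiableAt (by norm_num))
      (hΦ.2 y t)
  refine ⟨Real.exp K, (Real.exp_pos _).le, fun τ hτ x y => ?_⟩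
  have h2 := norm_le_gronwallBound_of_norm_deriv_right_le
    (f := fun t => e (Φ t x) - e (Φ t y)) (f' := fun t => Gv (Φ t x) - Gv (Φ t y))
    (δ := ‖e x - e y‖) (K := K) (ε := 0) (a := 0) (b := τ)
    (fun t _ => ((hder x t).sub (hder y t)).continuousAt.continuousWithinAt)
    (fun t _ => ((hder x t).sub (hder y t)).hasDerivWithinAt)
    (by rw [hΦ.1.zero, hΦ.1.zero])
    (fun t _ => by rw [add_zero]; exact h1 0 ⟨le_rfl, zero_le_one⟩ _ _) τ ⟨hτ.1, le_rfl⟩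
  rw [gronwallBound_ε0, sub_zero, mul_comm] at h2
  refine h2.trans (mul_le_mul_of_nonneg_right (Real.exp_le_exp.2 ?_) (norm_nonneg _))
  have := mul_le_mul_of_nonneg_left hτ.2 hK
  linarith

end

section

variable {N : Type u} [MetricSpace N] {φ ψ : ℝ → N → N}

/-- the abstract form: the positions converge -/
theorem asy_points (hφ : FlowOn N φ) (hψ : FlowOn N ψ) (hper : ∀ y, ψ 1 y = y)
    (hcomm : ∀ s t y, φ s (ψ t y) = ψ t (φ s y)) {K₁ K₂ K₃ K₄ : ℝ} (h1 : 0 ≤ K₁) (h2 : 0 ≤ K₂)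
    (h3 : 0 ≤ K₃) (h4 : 0 ≤ K₄)
    (lφ : ∀ r ∈ Icc (0 : ℝ) 1, ∀ x y, dist (φ r x) (φ r y) ≤ K₁ * dist x y)
    (lψ : ∀ t x y, dist (ψ t x) (ψ t y) ≤ K₂ * dist x y)
    (sep : ∀ (t : ℝ) (x : N), ∃ j : ℤ, |t - (j : ℝ)| ≤ K₃ * dist (ψ t x) x)
    (lt : ∀ (t : ℝ) (x : N), dist (ψ t x) x ≤ K₄ * |t|) {z v : N} {c : ℕ → ℝ} {C lam : ℝ}
    (hC : 0 ≤ C) (h0 : 0 < lam) (hl : lam < 1)
    (hc : ∀ k : ℕ, dist (φ k z) (ψ (c k) (φ k v)) ≤ C * lam ^ k) :
    ∃ c₀ C' : ℝ, 0 ≤ C' ∧ ∀ k : ℕ, ∀ r ∈ Icc (0 : ℝ) 1,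
      dist (φ (k + r) z) (φ (k + r) (ψ c₀ v)) ≤ C' * lam ^ k := by
  -- the increments are close to integers
  have hb : ∀ k, ∃ j : ℤ, |c k - c (k + 1) - j| ≤ K₃ * ((K₁ + 1) * C) * lam ^ k := by
    intro k
    set w := ψ (c (k + 1)) (φ (k + 1 : ℕ) v) with hw
    obtain ⟨j, hj⟩ := sep (c k - c (k + 1)) w
    refine ⟨j, hj.trans ?_⟩
    have e1 : ψ (c k - c (k + 1)) w = φ 1 (ψ (c k) (φ k v)) := by
      rw [hw, ← hψ.add, sub_add_cancel, hcomm, ← hφ.add]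
      congr 2
      push_cast
      ring
    rw [e1]
    have e2 := lφ 1 ⟨zero_le_one, le_rfl⟩ (ψ (c k) (φ k v)) (φ k z)
    rw [← hφ.add 1 k z, dist_comm (ψ (c k) (φ k v))] at e2
    have e3 := hc (k + 1)
    rw [show ((k + 1 : ℕ) : ℝ) = 1 + k by push_cast; ring] at e3
    have e4 := dist_triangle (φ 1 (ψ (c k) (φ k v))) (φ (1 + k) z) w
    rw [show w = ψ (c (k + 1)) (φ (1 + k) v) by rw [hw]; congr 2; push_cast; ring] at e4 ⊢
    have e5 := mul_le_mul_of_nonneg_left (hc k) h1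
    have e6 : C * lam ^ (k + 1) ≤ C * lam ^ k :=
      mul_le_mul_of_nonneg_left (pow_le_pow_of_le_one h0.le hl.le (Nat.le_succ k)) hC
    have e7 : dist (φ 1 (ψ (c k) (φ k v))) (ψ (c (k + 1)) (φ (1 + k) v)) ≤
        (K₁ + 1) * C * lam ^ k := by
      rw [show (K₁ + 1) * C * lam ^ k = K₁ * (C * lam ^ k) + C * lam ^ k by ring]
      linarith
    calc _ ≤ K₃ * ((K₁ + 1) * C * lam ^ k) := mul_le_mul_of_nonneg_left e7 h3
      _ = _ := by ring
  choose j hj using hb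
  set c' : ℕ → ℝ := fun k => c k + ((∑ i ∈ Finset.range k, j i : ℤ) : ℝ) with hc'
  have hinc : ∀ k, |c' (k + 1) - c' k| ≤ K₃ * ((K₁ + 1) * C) * lam ^ k := by
    intro k
    have e : c' (k + 1) - c' k = -(c k - c (k + 1) - j k) := by
      show c (k + 1) + ((∑ i ∈ Finset.range (k + 1), j i : ℤ) : ℝ) -
        (c k + ((∑ i ∈ Finset.range k, j i : ℤ) : ℝ)) = _
      rw [Finset.sum_range_succ]
      push_cast
      ring
    rw [e, abs_neg]
    exact hj k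
  obtain ⟨c₀, hc₀⟩ := lim_exp (by positivity) h0 hl hinc
  have act : CAct ψ := ⟨hψ.cont, hψ.zero, hψ.add, hper⟩
  have hlam : 0 < 1 - lam := by linarith
  set D := K₃ * ((K₁ + 1) * C) / (1 - lam) with hD
  have hD0 : 0 ≤ D := by positivity
  refine ⟨c₀, K₁ * (C + K₄ * D), by positivity, fun k r hr => ?_⟩
  have e1 : dist (φ k z) (φ k (ψ c₀ v)) ≤ (C + K₄ * D) * lam ^ k := by
    have a1 : ψ (c k) (φ k v) = ψ (c' k) (φ k v) := (psi_shift act (c k) _ _).symm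
    have a2 : dist (ψ (c' k) (φ k v)) (ψ c₀ (φ k v)) ≤ K₄ * (D * lam ^ k) := by
      have b1 := lt (c' k - c₀) (ψ c₀ (φ k v))
      rw [← hψ.add, sub_add_cancel] at b1
      exact b1.trans (mul_le_mul_of_nonneg_left (hc₀ k) h4)
    have a3 := dist_triangle (φ k z) (ψ (c' k) (φ k v)) (ψ c₀ (φ k v))
    have a4 := hc k
    rw [a1] at a4
    rw [hcomm]
    calc _ ≤ C * lam ^ k + K₄ * (D * lam ^ k) := by linarith
      _ = _ := by ring
  have e2 := lφ r hr (φ k z) (φ k (ψ c₀ v))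
  rw [← hφ.add, ← hφ.add, add_comm r (k : ℝ)] at e2
  calc _ ≤ K₁ * dist (φ k z) (φ k (ψ c₀ v)) := e2
    _ ≤ K₁ * ((C + K₄ * D) * lam ^ k) := mul_le_mul_of_nonneg_left e1 h1
    _ = _ := by ring

end

section

variable {n : ℕ} {N : Type u} [TopologicalSpace N] [T2Space N] [CompactSpace N]
  [ChartedSpace (V n) N] [IsManifold (𝓡 n) ∞ N]

/-- the rotations are Lipschitz in time -/
theorem lip_time {W : Type v} [NormedAddCommGroup W] [NormedSpace ℝ W] {e : N → W} (h : Emb n N e)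
    {X : ∀ y : N, TangentSpace (𝓡 n) y} (hX : FieldC 1 X) {Φ : ℝ → N → N} (hΦ : IsFlowOf X Φ) :
    ∃ K : ℝ, 0 ≤ K ∧ ∀ t x, ‖e (Φ t x) - e x‖ ≤ K * |t| := by
  have : IsManifold (𝓡 n) 1 N := IsManifold.of_le (m := 1) (n := ∞) (by norm_cast)
  set Gv : N → W := fun y => mfderiv (𝓡 n) 𝓘(ℝ, W) e y (X y) with hGv
  have hG : ContMDiff (𝓡 n) 𝓘(ℝ, W) 1 Gv := by
    have h1 : ContMDiff (𝓡 n).tangent 𝓘(ℝ, W).tangent 1 (tangentMap (𝓡 n) 𝓘(ℝ, W) e) :=
      h.smooth.contMDiff_tangentMap (by norm_cast)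
    have h2 := ContMDiff.comp h1 hX
    exact (contMDiff_snd_tangentBundle_modelSpace W 𝓘(ℝ, W)).comp h2
  have hder : ∀ y t, HasDerivAt (fun t => e (Φ t y)) (Gv (Φ t y)) t := by
    intro y t
    exact der_aux (γ := fun t => Φ t y) ((h.smooth (Φ t y)).mdifferentiableAt (by norm_num))
      (hΦ.2 y t)
  obtain ⟨K, hK⟩ := isCompact_univ.exists_bound_of_continuousOn hG.continuous.continuousOn
  refine ⟨|K|, abs_nonneg _, fun t x => ?_⟩
  have h2 := Convex.norm_image_sub_le_of_norm_hasDerivWithin_le (f := fun t => e (Φ t x))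
    (f' := fun t => Gv (Φ t x)) (C := |K|) (s := univ) (x := 0) (y := t)
    (fun u _ => (hder x u).hasDerivWithinAt)
    (fun u _ => (hK _ (mem_univ _)).trans (le_abs_self K)) convex_univ (mem_univ _) (mem_univ _)
  simp only [hΦ.1.zero, sub_zero, Real.norm_eq_abs] at h2
  exact h2

/-- **For free actions exponentially asymptotic fibres contain exponentially asymptotic points.** -/
theorem asy_free {ψ : ℝ → N → N} (hψ : IsFlow n N ψ)
    (hfree : ∀ (y : N) (t : ℝ), ψ t y = y ↔ ∃ j : ℤ, t = j)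
    {Z : ∀ y : N, TangentSpace (𝓡 n) y} (hZ : FieldC 1 Z) (hψZ : IsFlowOf Z ψ)
    {Y : ∀ y : N, TangentSpace (𝓡 n) y} (hY : FieldC 1 Y) {φ : ℝ → N → N} (hφY : IsFlowOf Y φ)
    (hcomm : ∀ s t y, φ s (ψ t y) = ψ t (φ s y)) {B : Type v} [TopologicalSpace B]
    {π : N → B} {β : ℝ → B → B} (hπ : OrbitFlow φ ψ π β) {p y : B} (h : ExpAsyF n π β p y) :
    ∃ z v, π z = p ∧ π v = y ∧ AsyPt n φ z v := by
  obtain ⟨ι, hι, e, he⟩ := exists_emb (n := n) (N := N)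
  let _ : MetricSpace N :=
    ((he.smooth.continuous.isClosedEmbedding he.inj).isEmbedding).comapMetricSpace e
  have hdist : ∀ x y : N, dist x y = ‖e x - e y‖ := fun x y => dist_eq_norm (e x) (e y)
  obtain ⟨x, w, hx, hw, hxw⟩ := h
  obtain ⟨C, l, hC, hl, hd⟩ := close_embF he.smooth hxw
  obtain ⟨K₁, h1, lφ⟩ := lip_flow_unif he hY hφY
  obtain ⟨K₂, h2, lψ⟩ := lipψ_emb he hψ hfree
  obtain ⟨K₃, h3, sep⟩ := sep_emb he hψ hfree
  obtain ⟨K₄, h4, lt⟩ := lip_time he hZ hψZ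
  have hper : ∀ y, ψ 1 y = y := fun y => (hfree y 1).2 ⟨1, by norm_num⟩
  have hsemi : ∀ (k : ℕ) q, π (φ k q) = β k (π q) := fun k q => hπ.semi _ _
  have hz0 : π (x 0) = p := by rw [hx 0 le_rfl, hπ.flow.zero]
  have hv0 : π (w 0) = y := by rw [hw 0 le_rfl, hπ.flow.zero]
  have hxa : ∀ k : ℕ, ∃ a, φ k (x 0) = ψ a (x k) := by
    intro k
    refine (hπ.eq (x k) (φ k (x 0))).1 ?_
    rw [hx _ (Nat.cast_nonneg k), hsemi, hz0]
  have hwb : ∀ k : ℕ, ∃ b, w k = ψ b (φ k (w 0)) := by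
    intro k
    refine (hπ.eq (φ k (w 0)) (w k)).1 ?_
    rw [hw _ (Nat.cast_nonneg k), hsemi, hv0]
  choose a ha using hxa
  choose b hb using hwb
  set lam := Real.exp (-l) with hlam
  have hl1 : lam < 1 := by rw [hlam, Real.exp_lt_one_iff]; linarith
  have hc : ∀ k : ℕ, dist (φ k (x 0)) (ψ (a k + b k) (φ k (w 0))) ≤ K₂ * C * lam ^ k := by
    intro k
    rw [ha, hψZ.1.add, ← hb, hdist]
    have e1 := hd k (Nat.cast_nonneg k)
    have e2 : Real.exp (-(l * k)) = lam ^ k := by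
      rw [hlam, ← Real.exp_nat_mul]
      congr 1
      ring
    rw [e2] at e1
    calc _ ≤ K₂ * ‖e (x k) - e (w k)‖ := lψ _ _ _
      _ ≤ K₂ * (C * lam ^ k) := mul_le_mul_of_nonneg_left e1 h2
      _ = _ := by ring
  obtain ⟨c₀, C', hC', hfin⟩ := asy_points hφY.1 hψZ.1 hper hcomm h1 h2 h3 h4
    (fun r hr x y => by rw [hdist, hdist]; exact lφ r hr x y)
    (fun t x y => by rw [hdist, hdist]; exact lψ t x y)
    (fun t x => by rw [hdist]; exact sep t x) (fun t x => by rw [hdist]; exact lt t x)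
    (mul_nonneg h2 hC) (Real.exp_pos _) hl1 hc
  refine ⟨x 0, ψ c₀ (w 0), hz0, ?_, fun g hg => ?_⟩
  · rw [← hv0]
    exact ((hπ.eq _ _).2 ⟨c₀, rfl⟩).symm
  · obtain ⟨K, hK, hgK⟩ := lip_emb he (g := fun q : ℝ × N => g q.2)
      ((hg.of_le (by norm_cast)).comp contMDiff_snd)
    refine ⟨K * (C' * Real.exp l), l, hl, fun t ht => ?_⟩
    have f1 := Int.floor_le t
    have f2 := Int.lt_floor_add_one t
    have f3 : 0 ≤ ⌊t⌋ := Int.floor_nonneg.2 ht
    obtain ⟨k, hk⟩ := Int.eq_ofNat_of_zero_le f3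
    have hk' : (⌊t⌋ : ℝ) = (k : ℝ) := by rw [hk]; rfl
    rw [hk'] at f1 f2
    have e1 := hfin k (t - k) ⟨by linarith, by linarith⟩
    rw [add_sub_cancel, hdist] at e1
    have e2 := hgK 0 ⟨le_rfl, zero_le_one⟩ (φ t (x 0)) (φ t (ψ c₀ (w 0)))
    rw [Real.norm_eq_abs] at e2
    have e3 : lam ^ k ≤ Real.exp l * Real.exp (-(l * t)) := by
      rw [hlam, ← Real.exp_nat_mul, ← Real.exp_add]
      refine Real.exp_le_exp.2 ?_
      have := mul_le_mul_of_nonneg_left f2.le hl.le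
      linarith
    calc _ ≤ K * ‖e (φ t (x 0)) - e (φ t (ψ c₀ (w 0)))‖ := e2
      _ ≤ K * (C' * lam ^ k) := mul_le_mul_of_nonneg_left e1 hK
      _ ≤ K * (C' * (Real.exp l * Real.exp (-(l * t)))) :=
        mul_le_mul_of_nonneg_left (mul_le_mul_of_nonneg_left e3 hC') hK
      _ = _ := by ring

/-- **The hypothesis on the fibres implies the hypothesis on the points**, for free actions. -/
theorem asyField_of_free [MeasurableSpace N] {ψ : ℝ → N → N} (hψ : IsFlow n N ψ)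
    (hfree : ∀ (y : N) (t : ℝ), ψ t y = y ↔ ∃ j : ℤ, t = j)
    {Z : ∀ y : N, TangentSpace (𝓡 n) y} (hZ : FieldC 1 Z) (hψZ : IsFlowOf Z ψ)
    {Y : ∀ y : N, TangentSpace (𝓡 n) y} (hY : FieldC 1 Y) {φ : ℝ → N → N} (hφY : IsFlowOf Y φ)
    (hcomm : ∀ s t y, φ s (ψ t y) = ψ t (φ s y)) {B : Type v} [TopologicalSpace B]
    [MeasurableSpace B] {π : N → B} {β : ℝ → B → B} {μ : Measure N} {k : ℕ}
    {m : Fin k → Measure B} (h : AsyBase n φ ψ π β μ m) : AsyField n φ ψ π β μ m where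
  base := h.base
  quasi := h.quasi
  prob := h.prob
  erg := h.erg
  asy := fun E hE hm => by
    filter_upwards [h.asy E hE hm] with p hp
    obtain ⟨y, hy, hpy⟩ := hp
    obtain ⟨z, v, hz, hv, hzv⟩ := asy_free hψ hfree hZ hψZ hY hφY hcomm h.base hpy
    exact ⟨z, v, hz, hv ▸ hy, hzv⟩

end

end Pool.Agent.V5helper25.QC
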