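import Pool.Agent.V5helper25.CA.Res
import Pool.Agent.V5helper25.QA.Mst

/-!
# MP_3a2b62: every measure on the orbit space is the projection of a measure (arbitrary circle actions)
-/

set_option autoImplicit false
set_option linter.unusedSectionVars false

open scoped Topology ENNReal
open MeasureTheory Filter Set Metric

universe u v

namespace Pool.Agent.V5helper25.QC

open Pool.Agent.N813.CX Pool.Agent.V5helper25.CA
open Pool.Agent.V5helper25.QA (per_meas flen)
open Pool.Agent.V5helper25.TK (pi_psi)

section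

variable {N : Type u} [MetricSpace N] [CompactSpace N] [MeasurableSpace N] [BorelSpace N]
  {B : Type v} [MetricSpace B] [MeasurableSpace B] [BorelSpace B]
  {F : N ≃ₜ N} {ψ : ℝ → N → N} {π : N → B} {f : B → B}

theorem flen_inv (h : CAct ψ) {E : Set N} (hE : MeasurableSet E) (u : ℝ) (z : N) :
    flen ψ (ψ u z) E = flen ψ z E := by
  have hm : Measurable fun t => ψ t z :=
    (h.cont.comp (continuous_id.prodMk continuous_const)).measurable
  have hS : MeasurableSet {t : ℝ | ψ t z ∈ E} := hm hE
  have hper : ∀ (j : ℤ) (t : ℝ), t + j ∈ {t : ℝ | ψ t z ∈ E} ↔ t ∈ {t : ℝ | ψ t z ∈ E} := by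
    intro j t
    show ψ (t + j) z ∈ E ↔ ψ t z ∈ E
    rw [psi_shift h t j z]
  unfold flen
  have e1 : {t : ℝ | ψ t (ψ u z) ∈ E} ∩ Ioc 0 1 =
      (fun t => t + u) ⁻¹' ({t : ℝ | ψ t z ∈ E} ∩ Ioc u (u + 1)) := by
    ext t
    simp only [mem_inter_iff, mem_ofPred_eq, mem_Ioc, mem_preimage]
    rw [← h.add]
    constructor
    · rintro ⟨a, b, c⟩
      exact ⟨a, by linarith, by linarith⟩
    · rintro ⟨a, b, c⟩
      exact ⟨a, by linarith, by linarith⟩
  rw [e1, measure_preimage_add_right]
  exact per_meas hS hper u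

theorem flen_meas (h : CAct ψ) {E : Set N} (hE : MeasurableSet E) :
    Measurable fun z => flen ψ z E := by
  have h1 : MeasurableSet {q : N × ℝ | ψ q.2 q.1 ∈ E ∧ q.2 ∈ Ioc (0 : ℝ) 1} :=
    ((h.cont.comp continuous_swap).measurable hE).inter (measurable_snd measurableSet_Ioc)
  exact measurable_measure_prodMk_left h1

/-- **Every probability measure on the base is a projection.** -/
theorem exists_lift0 (h : CAct ψ) (ho : OrbitMap F ψ π f) (m : Measure B)
    [IsProbabilityMeasure m] : ∃ μ₀ : Measure N, IsProbabilityMeasure μ₀ ∧ μ₀.map π = m := by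
  have hCB : CompactSpace B := ⟨by rw [← ho.surj.range_eq]; exact isCompact_range ho.cont⟩
  set sec : B → N := Function.surjInv ho.surj with hsec
  have hs : ∀ y, π (sec y) = y := Function.surjInv_eq ho.surj
  have hm : ∀ z, Measurable fun t => ψ t z := fun z =>
    (h.cont.comp (continuous_id.prodMk continuous_const)).measurable
  set κ : B → Measure N := fun y => (volume.restrict (Ioc (0 : ℝ) 1)).map fun t => ψ t (sec y) with hκ
  have hκE : ∀ y E, MeasurableSet E → κ y E = flen ψ (sec y) E := by
    intro y E hE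
    rw [hκ]
    show (Measure.map (fun t => ψ t (sec y)) (volume.restrict (Ioc (0 : ℝ) 1))) E = _
    rw [Measure.map_apply (hm _) hE, Measure.restrict_apply (hm _ hE)]
    rfl
  have hκπ : ∀ z E, MeasurableSet E → κ (π z) E = flen ψ z E := by
    intro z E hE
    obtain ⟨u, hu⟩ := (ho.eq (sec (π z)) z).1 (hs (π z))
    rw [hκE _ _ hE]
    conv_rhs => rw [hu, flen_inv h hE]
  have hκm : Measurable κ := by
    refine Measure.measurable_of_measurable_coe κ fun E hE => ?_
    intro S hS
    refine (ho.cont.measurable.measurableSet_preimage_iff_of_surjective ho.surj).1 ?_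
    have : π ⁻¹' ((fun y => κ y E) ⁻¹' S) = (fun z => flen ψ z E) ⁻¹' S := by
      ext z
      show κ (π z) E ∈ S ↔ flen ψ z E ∈ S
      rw [hκπ z E hE]
    rw [this]
    exact flen_meas h hE hS
  have hκ1 : ∀ y, κ y univ = 1 := by
    intro y
    rw [hκE _ _ MeasurableSet.univ, flen]
    simp
  refine ⟨m.bind κ, ⟨?_⟩, ?_⟩
  · rw [Measure.bind_apply MeasurableSet.univ hκm.aemeasurable]
    simp [hκ1]
  · ext S hS
    rw [Measure.map_apply ho.cont.measurable hS,
      Measure.bind_apply (ho.cont.measurable hS) hκm.aemeasurable]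
    have h1 : ∀ y, κ y (π ⁻¹' S) = S.indicator 1 y := by
      intro y
      rw [hκE _ _ (ho.cont.measurable hS), flen]
      have h2 : ∀ t, π (ψ t (sec y)) = y := fun t => by rw [pi_psi ho, hs]
      by_cases hy : y ∈ S
      · have : {t : ℝ | ψ t (sec y) ∈ π ⁻¹' S} = univ := by
          ext t
          simp [h2, hy]
        rw [this, univ_inter, indicator_of_mem hy]
        simp
      · have : {t : ℝ | ψ t (sec y) ∈ π ⁻¹' S} = ∅ := by
          ext t
          simp [h2, hy]
        rw [this, empty_inter, indicator_of_notMem hy]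
        simp
    simp_rw [h1]
    rw [lintegral_indicator_one hS]

end

end Pool.Agent.V5helper25.QC
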