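import Pool.Agent.V5helper25.QC.Mst
import Pool.Agent.V5helper25.QC.Fl
import Pool.Agent.V5helper25.CA.Stm

/-!
# MP_3a2b62, Q1: maps which permute the orbits of an arbitrary circle action, asymptotic bases
-/

set_option autoImplicit false
set_option linter.unusedSectionVars false
set_option linter.unusedVariables false

open scoped Manifold ContDiff Topology
open MeasureTheory Filter Set Metric

universe u v

namespace Pool.Agent.V5helper25.QC

open Pool.Agent.H718R2.G Pool.Agent.W564.SC Pool.Agent.N813.CX Pool.Agent.H728R2.FA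
  Pool.Agent.TH290.CL Pool.Agent.V5helper25.TK
open Pool.Agent.V5helper25.PB (Fs co Ga)
open Pool.Agent.V5helper25.QA (ExpClose close_emb exists_emb)
open Pool.Agent.V5helper25.CA (CAct MC CircleMap mc_rot)

/-- The points `z` and `v` of the manifold `N` are exponentially asymptotic for the map `F` which
permutes the orbits of `ψ` with derivative `A`: for every smooth function `g` there are `C` and `l < 1`
with `|g (F^k z) - g (F^k v)| ≤ C l^k` for all `k`, and there are `C` and `l < 1` with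
`|A (ψ_t (F^k z)) - A (ψ_t (F^k v))| ≤ C l^k` for all `k` and `t` (which follows if `A` is of class
`C^1`). -/
def AsyMap (n : ℕ) {N : Type u} [TopologicalSpace N] [ChartedSpace (V n) N] (F : N → N)
    (ψ : ℝ → N → N) (A : N → ℝ) (z v : N) : Prop :=
  (∀ g : N → ℝ, ContMDiff (𝓡 n) 𝓘(ℝ, ℝ) ∞ g →
    ∃ C l : ℝ, 0 < l ∧ l < 1 ∧ ∀ k : ℕ, |g (F^[k] z) - g (F^[k] v)| ≤ C * l ^ k) ∧
  ∃ C l : ℝ, 0 < l ∧ l < 1 ∧ ∀ (k : ℕ) (t : ℝ), |A (ψ t (F^[k] z)) - A (ψ t (F^[k] v))| ≤ C * l ^ k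

/-- `f` is the map induced by `F` on the space `B` of the orbits of `ψ`; the null sets of `μ` are
invariant under `ψ`; the measures `m i` are ergodic invariant probability measures of `f`; for every
measurable set `E` of full measure for all `m i` and almost every point `p` of `B`, for the projection
of `μ`, there are points `z` over `p` and `v` over a point of `E` which are exponentially asymptotic
for `F`. -/
structure AsyMapBase (n : ℕ) {N : Type u} [TopologicalSpace N] [ChartedSpace (V n) N]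
    [MeasurableSpace N] {B : Type v} [TopologicalSpace B] [MeasurableSpace B] (F : N → N)
    (ψ : ℝ → N → N) (A : N → ℝ) (π : N → B) (f : B → B) (μ : Measure N) {k : ℕ}
    (m : Fin k → Measure B) : Prop where
  base : OrbitMap F ψ π f
  quasi : ∀ t, μ.map (ψ t) ≪ μ
  prob : ∀ i, IsProbabilityMeasure (m i)
  erg : ∀ i, Ergodic f (m i)
  asy : ∀ E : Set B, MeasurableSet E → (∀ i, m i Eᶜ = 0) →
    ∀ᵐ p ∂(μ.map π), ∃ z v, π z = p ∧ π v ∈ E ∧ AsyMap n F ψ A z v

section

variable {N : Type u} [MetricSpace N] [CompactSpace N] {F : N ≃ₜ N} {ψ : ℝ → N → N} {A : N → ℝ}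

theorem int_close (act : CAct ψ) (hA : Continuous A)
    (hone : ∀ y, ∫ u in (0 : ℝ)..1, A (ψ u y) = 1) {x y : N} {ε : ℝ} (hε : 0 ≤ ε)
    (h : ∀ t, |A (ψ t x) - A (ψ t y)| ≤ ε) (t : ℝ) :
    |(∫ u in (0 : ℝ)..t, A (ψ u x)) - ∫ u in (0 : ℝ)..t, A (ψ u y)| ≤ ε := by
  have hc : ∀ y, Continuous fun u => A (ψ u y) := fun y =>
    hA.comp (act.cont.comp (continuous_id.prodMk continuous_const))
  have hii : ∀ y a b, IntervalIntegrable (fun u => A (ψ u y)) volume a b := fun y a b =>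
    (hc y).intervalIntegrable a b
  have hp : ∀ y, Function.Periodic (fun u => A (ψ u y)) 1 := fun y u => by
    show A (ψ (u + 1) y) = A (ψ u y)
    rw [act.add, act.per]
  have hper : ∀ y (t : ℝ), (∫ u in (0 : ℝ)..(t + 1), A (ψ u y)) =
      (∫ u in (0 : ℝ)..t, A (ψ u y)) + 1 := by
    intro y t
    rw [← intervalIntegral.integral_add_adjacent_intervals (hii y 0 t) (hii y t (t + 1)),
      (hp y).intervalIntegral_add_eq t 0, zero_add, hone]
  set D : ℝ → ℝ := fun t => (∫ u in (0 : ℝ)..t, A (ψ u x)) - ∫ u in (0 : ℝ)..t, A (ψ u y) with hD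
  have hDp : Function.Periodic D 1 := fun t => by
    show (∫ u in (0 : ℝ)..(t + 1), A (ψ u x)) - (∫ u in (0 : ℝ)..(t + 1), A (ψ u y)) = D t
    rw [hper, hper, hD]
    ring
  have h0 : ∀ t ∈ Icc (0 : ℝ) 1, |D t| ≤ ε := by
    intro t ht
    have e1 : D t = ∫ u in (0 : ℝ)..t, (A (ψ u x) - A (ψ u y)) :=
      (intervalIntegral.integral_sub (hii x 0 t) (hii y 0 t)).symm
    rw [e1, ← Real.norm_eq_abs]
    refine (intervalIntegral.norm_integral_le_of_norm_le_const (C := ε) fun u _ => ?_).trans ?_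
    · exact h u
    · rw [sub_zero, abs_of_nonneg ht.1]
      exact mul_le_of_le_one_right hε ht.2
  have h1 : D t = D (Int.fract t) := by
    have := hDp.sub_int_mul_eq (x := t) ⌊t⌋
    rw [mul_one] at this
    exact this.symm
  show |D t| ≤ ε
  rw [h1]
  exact h0 _ ⟨Int.fract_nonneg t, (Int.fract_lt_one t).le⟩

theorem asyz_map (act : CAct ψ) (hA : Continuous A)
    (hone : ∀ y, ∫ u in (0 : ℝ)..1, A (ψ u y) = 1) {z v : N} {C l C' l' : ℝ} (hC : 0 ≤ C)
    (hl0 : 0 < l) (hl1 : l < 1) (hd : ∀ k : ℕ, dist (F^[k] z) (F^[k] v) ≤ C * l ^ k)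
    (hl0' : 0 < l') (hl1' : l' < 1)
    (hd' : ∀ (k : ℕ) (t : ℝ), |A (ψ t (F^[k] z)) - A (ψ t (F^[k] v))| ≤ C' * l' ^ k) :
    AsyZ F ψ (fun s y t => s + ∫ u in (0 : ℝ)..t, A (ψ u y)) z v := by
  refine ⟨fun _ => 0, l', hl0', hl1', ?_, fun s => ⟨|C'|, abs_nonneg _, fun k t => ?_⟩⟩
  · have hlim : Tendsto (fun n : ℕ => C * l ^ n) atTop (𝓝 0) := by
      have := (tendsto_pow_atTop_nhds_zero_of_lt_one hl0.le hl1).const_mul C
      simpa using this
    refine squeeze_zero (fun _ => dist_nonneg) (fun n => ?_) hlim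
    rw [act.zero]
    exact hd n
  · have h1 := int_close act hA hone (x := F^[k] z) (y := F^[k] v) (ε := |C'| * l' ^ k)
      (by positivity) (fun t => (hd' k t).trans
        (mul_le_mul_of_nonneg_right (le_abs_self _) (by positivity))) t
    show |s + (∫ u in (0 : ℝ)..(t - 0), A (ψ u (F^[k] z))) + 0 -
      (s + ∫ u in (0 : ℝ)..t, A (ψ u (F^[k] v)))| ≤ _
    rw [sub_zero, add_zero, add_sub_add_left_eq_sub]
    exact h1

end

theorem meas_red' {B : Type v} [MeasurableSpace B] {k : ℕ} {m : Fin k → Measure B}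
    {ρ : Measure B} {R : B → Set B → Prop} (hR : ∀ p E E', E ⊆ E' → R p E → R p E')
    (hb : ∀ E : Set B, MeasurableSet E → (∀ i, m i Eᶜ = 0) → ∀ᵐ p ∂ρ, R p E) (E : Set B)
    (hE : ∀ i, ∀ᵐ y ∂(m i), y ∈ E) : ∀ᵐ p ∂ρ, R p E := by
  set E' : Set B := (toMeasurable (Measure.sum m) Eᶜ)ᶜ with hE'
  have h0 : Measure.sum m Eᶜ = 0 := by
    rw [Measure.sum_apply_of_countable, ENNReal.tsum_eq_zero]
    exact fun i => ae_iff.1 (hE i)
  have h1 : ∀ i, m i E'ᶜ = 0 := by
    intro i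
    have h2 : Measure.sum m E'ᶜ = 0 := by
      rw [hE', compl_compl, measure_toMeasurable, h0]
    rw [Measure.sum_apply_of_countable, ENNReal.tsum_eq_zero] at h2
    exact h2 i
  filter_upwards [hb E' (measurableSet_toMeasurable _ _).compl h1] with p hp
  refine hR p E' E (fun y hy => ?_) hp
  by_contra hc
  exact hy (subset_toMeasurable (Measure.sum m) Eᶜ hc)

section

variable {n : ℕ} {N : Type u} [TopologicalSpace N] [T2Space N] [CompactSpace N]
  [ChartedSpace (V n) N] [IsManifold (𝓡 n) ∞ N] [MeasurableSpace N] [BorelSpace N] {r : ℕ∞}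

/-- **The theorem on maps.** -/
theorem mainM (hr : 1 ≤ r) (F : DiffM n N r) (ψ : ℝ → N → N) (A : N → ℝ)
    (h : CircleMap n N F ψ A) {B : Type v} [MetricSpace B] [MeasurableSpace B] [BorelSpace B]
    {π : N → B} {f : B → B} {μ : Measure N} [IsFiniteMeasure μ] {k : ℕ} {m : Fin k → Measure B}
    (hB : AsyMapBase n F ψ A π f μ m) :
    (∀ᶠ s in residual ℝ, FiniteAttractors μ (Rt F ψ s)) ∧
    ∀ U : Set (DiffM n N r), IsOpen[strongTop n N r] U → F ∈ U →
      ∃ G ∈ U, CircleMap n N G ψ A ∧ OrbitMap G ψ π f ∧ (∃ s, ∀ y, G y = ψ s (F y)) ∧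
        FiniteAttractors μ G := by
  obtain ⟨ι, hι, e, he⟩ := exists_emb (n := n) (N := N)
  let _ : MetricSpace N :=
    ((he.smooth.continuous.isClosedEmbedding he.inj).isEmbedding).comapMetricSpace e
  have hdist : ∀ x y : N, dist x y = ‖e x - e y‖ := fun x y => dist_eq_norm (e x) (e y)
  have act : CAct ψ := ⟨h.flow.smooth.continuous, h.flow.zero, h.flow.add, h.per⟩
  obtain ⟨L, hM⟩ := mc_rot (F := F.toHomeomorph) act h.cont h.pos h.one h.ext
  have hπ := hB.base
  have hb' : ∀ E : Set B, (∀ i, ∀ᵐ y ∂(m i), y ∈ E) → ∀ᵐ p ∂(μ.map π), ∃ z v,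
      π z = p ∧ π v ∈ E ∧
        AsyZ F.toHomeomorph ψ (fun s y t => s + ∫ u in (0 : ℝ)..t, A (ψ u y)) z v := by
    intro E hE
    have h1 := meas_red' (m := m) (ρ := μ.map π)
      (R := fun p E => ∃ z v, π z = p ∧ π v ∈ E ∧ AsyMap n F ψ A z v)
      (fun p E E' hEE ⟨z, v, a, b, c⟩ => ⟨z, v, a, hEE b, c⟩) hB.asy E hE
    filter_upwards [h1] with p hp
    obtain ⟨z, v, hz, hv, hzv, C', l', hl0', hl1', hd'⟩ := hp
    obtain ⟨C, l, hC, hl0, hl1, hd⟩ := close_emb (x := fun k => F^[k] z) (w := fun k => F^[k] v)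
      he.smooth hzv
    exact ⟨z, v, hz, hv, asyz_map (F := F.toHomeomorph) act h.cont h.one hC hl0 hl1
      (fun k => by rw [hdist]; exact hd k) hl0' hl1' hd'⟩
  have hres : ∀ᶠ s in residual ℝ, FiniteAttractors μ (Rt F ψ s) := by
    have hh : ∀ i, ∀ᶠ s in residual ℝ, FinZ F.toHomeomorph
        (fun s y t => s + ∫ u in (0 : ℝ)..t, A (ψ u y))
        (Fs F.toHomeomorph ψ (fun s y t => s + ∫ u in (0 : ℝ)..t, A (ψ u y)) s) ψ π (m i) :=
      fun i => by
        have := hB.prob i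
        exact mostS hM (show OrbitMap F.toHomeomorph ψ π f from hπ) (hB.erg i)
    filter_upwards [eventually_countable_forall.2 hh] with s hs
    rw [Pool.Agent.V5helper25.CA.Fs_rot] at hs
    refine fin_all act (G := Rt F ψ s) ?_ hπ.cont hπ.eq hB.quasi hb' hs
    exact h.flow.smooth.continuous.comp (continuous_const.prodMk F.continuous)
  refine ⟨hres, fun U hU hFU => ?_⟩
  obtain ⟨H, hH, hHe, hH0⟩ := Pool.Agent.N102.UF.flow_fam h.flow r F
  rcases isEmpty_or_nonempty N with hN | ⟨⟨z⟩⟩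
  · obtain ⟨s, hs⟩ := (dense_of_mem_residual hres).nonempty
    refine ⟨F, hFU, h, hπ, ⟨0, fun y => (hN.false y).elim⟩, ?_⟩
    have : (F : N → N) = Rt F ψ s := funext fun y => (hN.false y).elim
    rw [this]
    exact hs
  obtain ⟨κ, hκ, hk⟩ := Pool.Agent.TH80.CLX.fam_mem r hr H hH z U hU (by rw [hH0]; exact hFU)
  obtain ⟨s, hs, hsf⟩ := (dense_of_mem_residual hres).inter_open_nonempty (Ioo (-κ) κ) isOpen_Ioo
    ⟨0, by constructor <;> linarith⟩
  have hHs : (H s : N → N) = Rt F ψ s := funext fun y => hHe s y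
  refine ⟨H s, hk s (by rw [Real.norm_eq_abs, abs_lt]; exact hs), ?_, ?_, ⟨s, hHe s⟩, ?_⟩
  · refine ⟨h.flow, h.per, h.cont, h.pos, h.one, fun y t => ?_⟩
    rw [hHe, hHe, h.ext, ← h.flow.add, ← h.flow.add, add_comm]
  · rw [hHs]
    exact orbR (F := F.toHomeomorph) hπ s
  · rw [hHs]
    exact hsf

end

end Pool.Agent.V5helper25.QC
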