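import Pool.Agent.V5helper25.QC.Asy

/-!
# MP_3a2b62: most parameters have finitely many attractors (arbitrary circle actions, asymptotic bases)
-/

set_option autoImplicit false
set_option linter.unusedSectionVars false
set_option linter.unusedVariables false

open scoped Topology ENNReal
open MeasureTheory Filter Set Metric

universe u v

namespace Pool.Agent.V5helper25.QC

open Pool.Agent.N813.CX Pool.Agent.V5helper25.CA Pool.Agent.H728R2.FA
open Pool.Agent.V5helper25.QA (fam_fin)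
open Pool.Agent.V5helper25.PB (Fs co Ga avoid)
open Pool.Agent.V5helper25.TK (pi_psi)
open Pool.Agent.TH525.PF (omega_sub_of)

section

variable {N : Type u} [MetricSpace N] [CompactSpace N] {F : N ≃ₜ N} {ψ : ℝ → N → N}
  {A A' : ℝ → N → ℝ → ℝ} {c L : ℝ}
  {B : Type v} [MetricSpace B] [MeasurableSpace B] [BorelSpace B] {π : N → B} {f : B → B}

theorem Fs_rec (h : MC F ψ A A' c L) (s₀ s : ℝ) :
    Fs (fsH h s₀) ψ (fun σ y t => A (s₀ + σ) y t - A s₀ y 0) s = Fs F ψ A (s₀ + s) := by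
  funext y
  show ψ (A (s₀ + s) y 0 - A s₀ y 0) (ψ (A s₀ y 0) (F y)) = ψ (A (s₀ + s) y 0) (F y)
  rw [← h.act.add, sub_add_cancel]

variable [MeasurableSpace N] [BorelSpace N] {m : Measure B} [IsProbabilityMeasure m]

/-- **Locked parameters.** -/
theorem lkM (h : MC F ψ A A' c L) (ho : OrbitMap F ψ π f)
    (erg : Ergodic f m) {s₀ s₁ : ℝ} (hG : ∀ n, m (π '' Ga F A s₀ s₁ n) = 0) :
    ∃ Z : Set ℝ, IsClosed Z ∧ volume Z = 0 ∧
      ∀ s, s₀ ≤ s → s ≤ s₁ → s ∉ Z → FinZ F A (Fs F ψ A s) ψ π m := by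
  have hr := recenter h s₀
  have hor : OrbitMap (fsH h s₀) ψ π f := orbF h ho s₀
  have hGr : ∀ n, m (π '' Ga (fsH h s₀) (fun σ y t => A (s₀ + σ) y t - A s₀ y 0) 0
      (s₁ - s₀) n) = 0 := by
    intro n
    refine measure_mono_null (image_mono ?_) (hG n)
    intro y hy t
    have := hy t
    rw [co_rec h, co_rec h, add_zero, add_sub_cancel] at this
    linarith
  obtain ⟨Z, hZ1, hZ2, hZ3⟩ := lk0 hr hor erg hGr
  refine ⟨(fun s => s - s₀) ⁻¹' Z, hZ1.preimage (continuous_id.sub continuous_const), ?_, ?_⟩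
  · rw [(measurePreserving_sub_right volume s₀).measure_preimage hZ1.measurableSet.nullMeasurableSet]
    exact hZ2
  · intro s hs0 hs1 hs
    have h3 := hZ3 (s - s₀) (by linarith) (by linarith) hs
    rw [Fs_rec h, add_sub_cancel] at h3
    obtain ⟨k, Λ, a1, a2⟩ := h3
    refine ⟨k, Λ, a1, ?_⟩
    filter_upwards [a2] with y hy z v hv hz using hy z v hv (hz.recen h s₀)

/-- **Parameters with a dense orbit.** -/
theorem finz_of_dense (h : MC F ψ A A' c L) (ho : OrbitMap F ψ π f)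
    (erg : Ergodic f m) {s : ℝ} {p : N} (hp : π p ∈ m.support)
    (hd : π ⁻¹' m.support ⊆ closure (range fun n : ℕ => (Fs F ψ A s)^[n] p)) :
    FinZ F A (Fs F ψ A s) ψ π m := by
  have hCB : CompactSpace B := ⟨by rw [← ho.surj.range_eq]; exact isCompact_range ho.cont⟩
  have hcl : IsClosed (π ⁻¹' m.support) := Measure.isClosed_support.preimage ho.cont
  have hsemi : ∀ z, π (Fs F ψ A s z) = f (π z) := (orbF h ho s).semi
  have hsupp := fun x => supp_image (f_inj h ho) ho erg x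
  refine ⟨1, fun _ => π ⁻¹' m.support, fun _ => ⟨hcl, ?_, p, hp, hd⟩, ?_⟩
  · apply Subset.antisymm
    · rintro _ ⟨z, hz, rfl⟩
      show π (Fs F ψ A s z) ∈ m.support
      rw [hsemi]
      exact (hsupp _).2 hz
    · intro z hz
      obtain ⟨w, rfl⟩ := Fs_surj h s z
      refine ⟨w, ?_, rfl⟩
      have : π (Fs F ψ A s w) ∈ m.support := hz
      rw [hsemi] at this
      exact (hsupp _).1 this
  · have h3 : ∀ᵐ x ∂m, x ∈ m.support := Measure.support_mem_ae
    filter_upwards [h3] with y hy z v hv hz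
    refine Eventually.of_forall fun t => ⟨0, ?_⟩
    obtain ⟨τ, lam, h0, h1, hd', -⟩ := hz
    have hy' : ∀ n, f^[n] y ∈ m.support := by
      intro n
      induction n with
      | zero => exact hy
      | succ n ih =>
        rw [Function.iterate_succ_apply']
        exact (hsupp _).2 ih
    have hlim := psi_tendsto h.act (fun n => co F A s n z t) hd'
    refine squeeze_zero (fun _ => infDist_nonneg) (fun n => ?_) hlim
    have hmem : ψ (co F A s n z t) (ψ (τ n) (F^[n] v)) ∈ π ⁻¹' m.support := by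
      show π (ψ (co F A s n z t) (ψ (τ n) (F^[n] v))) ∈ m.support
      rw [pi_psi ho, pi_psi ho, CLOS.semi_iter ho, hv]
      exact hy' n
    refine (infDist_le_dist_of_mem hmem).trans ?_
    rw [co_iter h]

/-- **Most parameters.** -/
theorem mostS (h : MC F ψ A A' c L) (ho : OrbitMap F ψ π f)
    (erg : Ergodic f m) : ∀ᶠ s in residual ℝ, FinZ F A (Fs F ψ A s) ψ π m := by
  set U₁ : Set ℝ := {s | ∃ ε : ℝ, 0 < ε ∧ ∀ n, m (π '' Ga F A (s - ε) (s + ε) n) = 0} with hU₁
  have hop : IsOpen U₁ := by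
    rw [Metric.isOpen_iff]
    rintro s ⟨ε, hε, hs⟩
    refine ⟨ε / 2, half_pos hε, fun s' hs' => ⟨ε / 2, half_pos hε, fun n => ?_⟩⟩
    rw [Metric.mem_ball, Real.dist_eq, abs_lt] at hs'
    refine measure_mono_null (image_mono (Ga_mono h ?_ ?_ n)) (hs n) <;> linarith
  have hdense : Dense (U₁ ∪ interior U₁ᶜ) := by
    rw [dense_iff_inter_open]
    intro V hV hVne
    by_cases hVU : (V ∩ U₁).Nonempty
    · obtain ⟨v, hv⟩ := hVU
      exact ⟨v, hv.1, Or.inl hv.2⟩
    · obtain ⟨v, hv⟩ := hVne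
      refine ⟨v, hv, Or.inr ?_⟩
      refine mem_interior.2 ⟨V, fun w hw hwU => hVU ⟨w, hw, hwU⟩, hV, hv⟩
  have hall : ∀ᶠ s in residual ℝ, s ∈ U₁ ∪ interior U₁ᶜ :=
    residual_of_dense_open (hop.union isOpen_interior) hdense
  have hA : ∀ᶠ s in residual ℝ, s ∈ U₁ → FinZ F A (Fs F ψ A s) ψ π m := by
    have h3 : ∀ q : ℚ × ℚ, ∀ᶠ s in residual ℝ, (∀ n, m (π '' Ga F A q.1 q.2 n) = 0) →
        (q.1 : ℝ) ≤ s → s ≤ q.2 → FinZ F A (Fs F ψ A s) ψ π m := by
      intro q
      by_cases hq' : ∀ n, m (π '' Ga F A q.1 q.2 n) = 0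
      · obtain ⟨Z, hZ1, hZ2, hZ3⟩ := lkM h ho erg hq'
        filter_upwards [avoid hZ1 hZ2] with s hs _ hs0 hs1 using hZ3 s hs0 hs1 hs
      · exact Eventually.of_forall fun s hc => absurd hc hq'
    filter_upwards [eventually_countable_forall.2 h3] with s hs
    rintro ⟨ε, hε, hsε⟩
    obtain ⟨q, hq1, hq2⟩ := exists_rat_btwn (show s - ε < s by linarith)
    obtain ⟨q', hq1', hq2'⟩ := exists_rat_btwn (show s < s + ε by linarith)
    exact hs (q, q') (fun n => measure_mono_null (image_mono (Ga_mono h hq1.le hq2'.le n)) (hsε n))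
      hq2.le hq1'.le
  have hB : ∀ᶠ s in residual ℝ, s ∈ interior U₁ᶜ → FinZ F A (Fs F ψ A s) ψ π m := by
    obtain ⟨p, hp, hres⟩ := resid (I := U₁ᶜ) h ho erg (fun s s' hss hI => by
      by_contra hcon
      push Not at hcon
      refine hI (show (s + s') / 2 ∈ Icc s s' by constructor <;> linarith)
        ⟨(s' - s) / 2, by linarith, fun n => ?_⟩
      have e1 : (s + s') / 2 - (s' - s) / 2 = s := by ring
      have e2 : (s + s') / 2 + (s' - s) / 2 = s' := by ring
      rw [e1, e2]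
      exact hcon n)
    filter_upwards [hres] with s hs hsU
    exact finz_of_dense h ho erg hp (hs hsU)
  filter_upwards [hall, hA, hB] with s a b d
  rcases a with a | a
  · exact b a
  · exact d a

end

section

variable {N : Type u} [MetricSpace N] [CompactSpace N] [MeasurableSpace N] [BorelSpace N]
  {B : Type v} [MetricSpace B] [MeasurableSpace B] [BorelSpace B] {π : N → B} {f : B → B}
  {F : N ≃ₜ N} {ψ : ℝ → N → N} {A : ℝ → N → ℝ → ℝ} {μ : Measure N} [IsFiniteMeasure μ]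

/-- **Finitely many attractors** over a base whose points are asymptotic to typical points. -/
theorem fin_all (act : CAct ψ) {G : N → N} (hG : Continuous G) (hπ : Continuous π)
    (hfib : ∀ x y, π x = π y ↔ ∃ t, y = ψ t x)
    (hq : ∀ t, μ.map (ψ t) ≪ μ) {k : ℕ} {m : Fin k → Measure B}
    (hb : ∀ E : Set B, (∀ i, ∀ᵐ y ∂(m i), y ∈ E) →
      ∀ᵐ p ∂(μ.map π), ∃ z v, π z = p ∧ π v ∈ E ∧ AsyZ F ψ A z v)
    (h : ∀ i, FinZ F A G ψ π (m i)) : FiniteAttractors μ G := by
  classical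
  choose l Λ h1 h2 using h
  set Q : Fin k → B → Prop := fun i y => ∀ z v, π v = y → AsyZ F ψ A z v → ∀ᵐ t : ℝ, ∃ j,
      Tendsto (fun n => infDist (G^[n] (ψ t z)) (Λ i j)) atTop (𝓝 0) with hQ
  have h3 := hb {y | ∃ i, Q i y} (fun i => by
    filter_upwards [h2 i] with y hy
    exact ⟨i, hy⟩)
  set P : Set N := {p | ∃ i : Σ i : Fin k, Fin (l i),
    Tendsto (fun n => infDist (G^[n] p) (Λ i.1 i.2)) atTop (𝓝 0)} with hP
  have mP : MeasurableSet P := by
    have : P = ⋃ i : Σ i : Fin k, Fin (l i),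
        {p | Tendsto (fun n => infDist (G^[n] p) (Λ i.1 i.2)) atTop (𝓝 0)} := by
      ext p; simp [hP]
    rw [this]
    refine MeasurableSet.iUnion fun i => ?_
    refine measurableSet_tendsto (𝓝 0) fun n => ?_
    exact ((Metric.continuous_infDist_pt _).comp (hG.iterate n)).measurable
  have h4 : ∀ᵐ z ∂μ, ∀ᵐ t : ℝ, ψ t z ∈ P := by
    filter_upwards [ae_of_ae_map hπ.measurable.aemeasurable h3] with z₀ hz₀
    obtain ⟨z, v, hz, ⟨i, hi⟩, hzv⟩ := hz₀
    obtain ⟨a, rfl⟩ := (hfib z z₀).1 hz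
    have h5 : ∀ᵐ t : ℝ, ψ t z ∈ P := by
      filter_upwards [hi z v rfl hzv] with t ht
      obtain ⟨j, hj⟩ := ht
      exact ⟨⟨i, j⟩, hj⟩
    have h6 : ∀ᵐ t : ℝ, ψ (t + a) z ∈ P :=
      (measurePreserving_add_right volume a).quasiMeasurePreserving.ae h5
    filter_upwards [h6] with t ht
    rwa [act.add] at ht
  obtain ⟨t, ht⟩ := ((swap_ae act mP).1 h4).exists
  have hm : Measurable (ψ t) := (act.cont.comp (continuous_const.prodMk continuous_id)).measurable
  have h5 : μ Pᶜ = 0 := by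
    refine ac_psi act hq t ?_
    rw [Measure.map_apply hm mP.compl]
    rw [ae_iff] at ht
    exact ht
  refine fam_fin (fun i : Σ i : Fin k, Fin (l i) => Λ i.1 i.2) (fun i => (h1 i.1 i.2).2) ?_
  refine measure_mono_null ?_ h5
  intro p hp hpP
  obtain ⟨i, hi⟩ := hpP
  obtain ⟨hcl, -, ⟨x, hx, -⟩⟩ := h1 i.1 i.2
  exact hp i (omega_sub_of G p hcl ⟨x, hx⟩ hi)

end

end Pool.Agent.V5helper25.QC
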