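import Pool.Agent.V5helper25.QC.Fl

/-!
# MP_3a2b62, Q2: fields compatible with an arbitrary circle action, asymptotically typical bases
-/

set_option autoImplicit false
set_option linter.unusedSectionVars false
set_option linter.unusedVariables false

open scoped Manifold ContDiff Topology
open MeasureTheory Filter Set Metric

universe u v

namespace Pool.Agent.V5helper25.QC

open Pool.Agent.H718R2.G Pool.Agent.W564.SC Pool.Agent.N813.CX Pool.Agent.H728R2.FA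
  Pool.Agent.TH290.CL Pool.Agent.V5helper25.CA
open Pool.Agent.V5helper25.PB (FlowOn Fs IsFlowOf FieldC OrbitFlow ErgFlow FiniteAttractorsF
  integral_curve flow_unique field_add Yo Yo_der FieldR FlowOf fieldS InvField fieldR_iff
  time_countable flow_of_time)
open Pool.Agent.V5helper25.QA (ExpCloseF exists_emb lip_emb)

/-- The points `z` and `v` of the manifold `N` are exponentially asymptotic for the flow `φ`: for every
smooth function `g` there are `C` and `l > 0` with `|g (φ_t z) - g (φ_t v)| ≤ C exp(-l t)` for all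
`t ≥ 0`. If `N` is compact this means that the distance of `φ_t z` and `φ_t v` (for any Riemannian
metric) is at most `C exp(-l t)` for some `C` and `l > 0`. -/
def AsyPt (n : ℕ) {N : Type u} [TopologicalSpace N] [ChartedSpace (V n) N] (φ : ℝ → N → N)
    (z v : N) : Prop :=
  ∀ g : N → ℝ, ContMDiff (𝓡 n) 𝓘(ℝ, ℝ) ∞ g →
    ∃ C l : ℝ, 0 < l ∧ ∀ t, 0 ≤ t → |g (φ t z) - g (φ t v)| ≤ C * Real.exp (-(l * t))

/-- `β` is the flow induced by `φ` on the space `B` of the orbits of `ψ`; the null sets of `μ` are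
invariant under `ψ`; the measures `m i` are ergodic invariant probability measures of `β`; for every
measurable set `E` of full measure for all `m i` and almost every point `p` of `B`, for the projection
of `μ`, there are points `z` over `p` and `v` over a point of `E` which are exponentially asymptotic
for `φ`. -/
structure AsyField (n : ℕ) {N : Type u} [TopologicalSpace N] [ChartedSpace (V n) N]
    [MeasurableSpace N] {B : Type v} [TopologicalSpace B] [MeasurableSpace B] (φ ψ : ℝ → N → N)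
    (π : N → B) (β : ℝ → B → B) (μ : Measure N) {k : ℕ} (m : Fin k → Measure B) : Prop where
  base : OrbitFlow φ ψ π β
  quasi : ∀ t, μ.map (ψ t) ≪ μ
  prob : ∀ i, IsProbabilityMeasure (m i)
  erg : ∀ i, ErgFlow β (m i)
  asy : ∀ E : Set B, MeasurableSet E → (∀ i, m i Eᶜ = 0) →
    ∀ᵐ p ∂(μ.map π), ∃ z v, π z = p ∧ π v ∈ E ∧ AsyPt n φ z v

theorem meas_red {B : Type v} [MeasurableSpace B] {k : ℕ} {m : Fin k → Measure B}
    {ρ : Measure B} {R : B → Set B → Prop} (hR : ∀ p E E', E ⊆ E' → R p E → R p E')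
    (hb : ∀ E : Set B, MeasurableSet E → (∀ i, m i Eᶜ = 0) → ∀ᵐ p ∂ρ, R p E) (E : Set B)
    (hE : ∀ i, ∀ᵐ y ∂(m i), y ∈ E) : ∀ᵐ p ∂ρ, R p E := by
  set E' : Set B := (toMeasurable (Measure.sum m) Eᶜ)ᶜ with hE'
  have h0 : Measure.sum m Eᶜ = 0 := by
    rw [Measure.sum_apply_of_countable, ENNReal.tsum_eq_zero]
    exact fun i => ae_iff.1 (hE i)
  have h1 : ∀ i, m i E'ᶜ = 0 := by
    intro i
    have h2 : Measure.sum m E'ᶜ = 0 := by
      rw [hE', compl_compl, measure_toMeasurable, h0]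
    rw [Measure.sum_apply_of_countable, ENNReal.tsum_eq_zero] at h2
    exact h2 i
  filter_upwards [hb E' (measurableSet_toMeasurable _ _).compl h1] with p hp
  refine hR p E' E (fun y hy => ?_) hp
  by_contra hc
  exact hy (subset_toMeasurable (Measure.sum m) Eᶜ hc)

section

variable {n : ℕ} {N : Type u} [TopologicalSpace N] [T2Space N] [CompactSpace N]
  [ChartedSpace (V n) N] [IsManifold (𝓡 n) ∞ N] [MeasurableSpace N] [BorelSpace N]

theorem mainQ {ψ : ℝ → N → N} (hψ : IsFlow n N ψ) (hper : ∀ y, ψ 1 y = y)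
    {Z : ∀ y : N, TangentSpace (𝓡 n) y} (hZ : FieldC 1 Z) (hψZ : IsFlowOf Z ψ)
    {Y : ∀ y : N, TangentSpace (𝓡 n) y} (hY : FieldC 1 Y) {φ : ℝ → N → N} (hφY : IsFlowOf Y φ)
    (hcomm : ∀ s t y, φ s (ψ t y) = ψ t (φ s y)) {g : N → ℝ} (hg : ContMDiff (𝓡 n) 𝓘(ℝ, ℝ) 1 g)
    {B : Type v} [MetricSpace B] [MeasurableSpace B] [BorelSpace B] {π : N → B} {β : ℝ → B → B}
    {μ : Measure N} [IsFiniteMeasure μ] {k : ℕ} {m : Fin k → Measure B}
    (hb : AsyField n φ ψ π β μ m) :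
    (∀ s : ℝ, ∃ Φ, IsFlowOf (fun x => Y x + (g x + s) • Z x) Φ) ∧
    ∀ᶠ s in residual ℝ, ∀ Φ, IsFlowOf (fun x => Y x + (g x + s) • Z x) Φ →
      FiniteAttractorsF μ Φ := by
  obtain ⟨ι, hι, e, he⟩ := exists_emb (n := n) (N := N)
  let _ : MetricSpace N :=
    ((he.smooth.continuous.isClosedEmbedding he.inj).isEmbedding).comapMetricSpace e
  have hdist : ∀ x y : N, dist x y = ‖e x - e y‖ := fun x y => dist_eq_norm (e x) (e y)
  obtain ⟨g', hF⟩ := exists_fldC hψ hper hφY.1 hcomm hg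
  have act : CAct ψ := ⟨hF.act.cont, hF.act.zero, hF.act.add, hF.per⟩
  have hPh : ∀ s, IsFlowOf (fun x => Y x + (g x + s) • Z x) (Ph hF s) := fun s =>
    ⟨Ph_flow hF s, fun y => integral_curve hψ hψZ.2 hφY.2 hcomm (u := Yo hF.fld s y 0)
      (Yo_der hF.fld s y 0)⟩
  refine ⟨fun s => ⟨_, hPh s⟩, ?_⟩
  have hπ := hb.base
  have hCB : CompactSpace B := ⟨by rw [← hπ.surj.range_eq]; exact isCompact_range hπ.cont⟩
  have hc : (⋃ i, {τ : ℝ | 0 < τ ∧ ¬ Ergodic (β τ) (m i)}).Countable :=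
    countable_iUnion fun i => by
      have := hb.prob i
      exact time_countable hπ.flow (hb.erg i)
  obtain ⟨τ, hτ, hτn⟩ := (hc.dense_compl ℝ).inter_open_nonempty (Ioi 0) isOpen_Ioi
    ⟨1, mem_Ioi.2 one_pos⟩
  have hτ0 : 0 < τ := hτ
  have herg : ∀ i, Ergodic (β τ) (m i) := fun i => by
    by_contra hcon
    exact hτn (mem_iUnion.2 ⟨i, hτ0, hcon⟩)
  obtain ⟨c, L, hM⟩ := exists_mfam hF hτ0
  have hO : OrbitMap (FlowOn.homeo (Ph_flow hF 0) τ) ψ π (β τ) :=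
    ⟨hπ.cont, hπ.surj, hπ.eq, fun x => by
      show π (ψ _ (φ τ x)) = β τ (π x)
      rw [← hπ.semi]
      exact ((hπ.eq _ _).2 ⟨_, rfl⟩).symm⟩
  -- the Lipschitz constant of `g` along the rotations
  have hgL : ∃ K' : ℝ, 0 ≤ K' ∧ ∀ u x y, |g (ψ u x) - g (ψ u y)| ≤ K' * dist x y := by
    have hk : ContMDiff (𝓘(ℝ, ℝ).prod (𝓡 n)) 𝓘(ℝ, ℝ) 1 (fun q : ℝ × N => g (ψ q.1 q.2)) :=
      hg.comp (hψ.smooth.of_le (by norm_cast))
    obtain ⟨K, hK, h1⟩ := lip_emb he hk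
    refine ⟨K, hK, fun u x y => ?_⟩
    have h2 := h1 (u - ⌊u⌋) ⟨by linarith [Int.floor_le u], by linarith [Int.lt_floor_add_one u]⟩ x y
    have h3 : ∀ w, ψ (u - ⌊u⌋) w = ψ u w := fun w => by
      have := psi_shift act (u - ⌊u⌋) ⌊u⌋ w
      rwa [sub_add_cancel, eq_comm] at this
    simp only [h3] at h2
    rw [hdist]
    exact h2
  obtain ⟨K', hK', hgL⟩ := hgL
  have hb' : ∀ E : Set B, (∀ i, ∀ᵐ y ∂(m i), y ∈ E) → ∀ᵐ p ∂(μ.map π), ∃ z v,
      π z = p ∧ π v ∈ E ∧ AsyZ (FlowOn.homeo (Ph_flow hF 0) τ) ψ (Af hF τ) z v := by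
    intro E hE
    have h1 := meas_red (m := m) (ρ := μ.map π)
      (R := fun p E => ∃ z v, π z = p ∧ π v ∈ E ∧ AsyPt n φ z v)
      (fun p E E' hEE ⟨z, v, a, b, c⟩ => ⟨z, v, a, hEE b, c⟩) hb.asy E hE
    filter_upwards [h1] with p hp
    obtain ⟨z, v, hz, hv, hzv⟩ := hp
    obtain ⟨C, l, hC, hl, hd⟩ := close_embF (x := fun t => φ t z) (w := fun t => φ t v)
      he.smooth hzv
    exact ⟨z, v, hz, hv, asyz_field hF hτ0 hK' hgL hC hl fun t ht => by
      rw [hdist]; exact hd t ht⟩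
  have hFs : ∀ s, Fs (FlowOn.homeo (Ph_flow hF 0) τ) ψ (Af hF τ) s = Ph hF s τ :=
    fun s => Fs_Ph hF τ s
  have hh : ∀ i, ∀ᶠ s in residual ℝ, FinZ (FlowOn.homeo (Ph_flow hF 0) τ) (Af hF τ)
      (Fs (FlowOn.homeo (Ph_flow hF 0) τ) ψ (Af hF τ) s) ψ π (m i) := fun i => by
    have := hb.prob i
    exact mostS hM hO (herg i)
  filter_upwards [eventually_countable_forall.2 hh] with s hs Φ hΦ
  rw [flow_unique (field_add hY hZ hg s) hΦ (hPh s)]
  rw [hFs] at hs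
  refine flow_of_time (Ph_flow hF s) hτ0
    (fin_all act (G := Ph hF s τ) ?_ hπ.cont hπ.eq hb.quasi hb' hs)
  exact (Ph_flow hF s).cont.comp (continuous_const.prodMk continuous_id)

/-- **The theorem on fields.** -/
theorem thmQ {r : ℕ∞} (hr : 1 ≤ r) {ψ : ℝ → N → N} {B : Type v} [MetricSpace B]
    [MeasurableSpace B] [BorelSpace B] {π : N → B} {μ : Measure N} [IsFiniteMeasure μ] {k : ℕ}
    {m : Fin k → Measure B} (Z Y : N → V n) (φ : ℝ → N → N) (g : N → ℝ) (β : ℝ → B → B)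
    (hψ : CircleField r ψ Z) (hY : InvField r ψ Y φ) (hg : ContMDiff (𝓡 n) 𝓘(ℝ, ℝ) r g)
    (hB : AsyField n φ ψ π β μ m) :
    (∀ s : ℝ, FieldR r (fieldS Y Z g s) ∧ ∃ Φ, FlowOf (fieldS Y Z g s) Φ) ∧
    ∀ᶠ s in residual ℝ, ∀ Φ, FlowOf (fieldS Y Z g s) Φ → FiniteAttractorsF μ Φ := by
  have hr1 : (1 : WithTop ℕ∞) ≤ (r : WithTop ℕ∞) := WithTop.coe_le_coe.mpr hr
  have hZ' := (fieldR_iff r Z).1 hψ.field
  have hY' := (fieldR_iff r Y).1 hY.field
  have h := mainQ hψ.smooth hψ.per (hZ'.le hr) hψ.gen (hY'.le hr) hY.flow hY.comm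
    (hg.of_le hr1) hB
  exact ⟨fun s => ⟨(fieldR_iff r _).2 (field_add hY' hZ' hg s), h.1 s⟩, h.2⟩

end

end Pool.Agent.V5helper25.QC
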